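import Mathlib

/-! Density form of the homogeneous rectangle lemma for inner products, by induction on the
dimension. -/

namespace Pool.Agent.X53.Bic

open Finset Classical

/-- every pair of finite families of vectors with many `R`-pairs has a large `R`-rectangle -/
def Dens (R : ℝ → Prop) (D : ℕ) : Prop :=
  ∀ ε : ℝ, 0 < ε → ∃ c : ℝ, 0 < c ∧ ∀ (α β : Type) (S : Finset α) (T : Finset β)
    (x : α → Fin D → ℝ) (y : β → Fin D → ℝ), S.Nonempty → T.Nonempty →
    ε * ((S.card : ℝ) * T.card) ≤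
      (((S ×ˢ T).filter (fun e => R (∑ i, x e.1 i * y e.2 i))).card : ℝ) →
    ∃ P ⊆ S, ∃ Q ⊆ T, c * S.card ≤ P.card ∧ c * T.card ≤ Q.card ∧
      ∀ a ∈ P, ∀ b ∈ Q, R (∑ i, x a i * y b i)

/-- the averaging step -/
theorem avg {α β : Type} (S : Finset α) (T : Finset β) (f : α → β → ℝ) (R1 R0 : ℝ → Prop)
    (hsub : ∀ r s, R1 r → R1 s → R0 (r - s) ∨ R0 (s - r)) (ε : ℝ) (hε : 0 < ε)
    (hS : S.Nonempty) (hT : T.Nonempty)
    (h : ε * ((S.card : ℝ) * T.card) ≤ (((S ×ˢ T).filter (fun e => R1 (f e.1 e.2))).card : ℝ)) :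
    ∃ q ∈ S, ε ^ 2 / 2 * ((S.card : ℝ) * T.card) ≤
      (((S ×ˢ T).filter (fun e => R1 (f q e.2) ∧ R0 (f e.1 e.2 - f q e.2))).card : ℝ) := by
  have hSpos : (0 : ℝ) < S.card := by exact_mod_cast card_pos.2 hS
  have hTpos : (0 : ℝ) < T.card := by exact_mod_cast card_pos.2 hT
  set k : β → ℝ := fun b => ((S.filter (fun a => R1 (f a b))).card : ℝ) with hk
  have hk0 : ∀ b, 0 ≤ k b := fun b => Nat.cast_nonneg _
  have hsum : (((S ×ˢ T).filter (fun e => R1 (f e.1 e.2))).card : ℝ) = ∑ b ∈ T, k b := by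
    rw [Finset.card_filter, Finset.sum_product_right]
    push_cast
    apply Finset.sum_congr rfl
    intro b hb
    rw [hk]
    simp only
    rw [Finset.card_filter]
    push_cast
    rfl
  -- for each b
  have hb2 : ∀ b, k b ^ 2 / 2 ≤
      ∑ q ∈ S, ((S.filter (fun a => R1 (f q b) ∧ R0 (f a b - f q b))).card : ℝ) := by
    intro b
    set Sb := S.filter (fun a => R1 (f a b)) with hSb
    have h1 : ∑ q ∈ S, ((S.filter (fun a => R1 (f q b) ∧ R0 (f a b - f q b))).card : ℝ) =
        (((S ×ˢ S).filter (fun z => R1 (f z.1 b) ∧ R0 (f z.2 b - f z.1 b))).card : ℝ) := by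
      rw [Finset.card_filter, Finset.sum_product]
      push_cast
      apply Finset.sum_congr rfl
      intro q hq
      rw [Finset.card_filter]
      push_cast
      rfl
    rw [h1]
    set W := (S ×ˢ S).filter (fun z => R1 (f z.1 b) ∧ R0 (f z.2 b - f z.1 b)) with hW
    have h2 : Sb ×ˢ Sb ⊆ W ∪ W.map (Equiv.prodComm α α).toEmbedding := by
      intro z hz
      rw [mem_product, hSb, mem_filter, mem_filter] at hz
      obtain ⟨⟨z1, z2⟩, z3, z4⟩ := hz
      rw [mem_union]
      rcases hsub _ _ z4 z2 with h5 | h5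
      · left
        rw [hW, mem_filter, mem_product]
        exact ⟨⟨z1, z3⟩, z2, h5⟩
      · right
        rw [mem_map]
        refine ⟨(z.2, z.1), ?_, rfl⟩
        rw [hW, mem_filter, mem_product]
        exact ⟨⟨z3, z1⟩, z4, h5⟩
    have h3 := card_le_card h2
    have h4 := card_union_le W (W.map (Equiv.prodComm α α).toEmbedding)
    rw [card_map] at h4
    rw [card_product] at h3
    have h5 : (Sb.card : ℝ) * Sb.card ≤ 2 * W.card := by
      have : Sb.card * Sb.card ≤ 2 * W.card := by omega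
      exact_mod_cast this
    have h6 : k b = Sb.card := rfl
    rw [h6]
    nlinarith
  have hcs := sq_sum_le_card_mul_sum_sq (s := T) (f := k)
  have htot : ε ^ 2 / 2 * ((S.card : ℝ) * T.card) * S.card ≤
      ∑ q ∈ S, (((S ×ˢ T).filter (fun e => R1 (f q e.2) ∧ R0 (f e.1 e.2 - f q e.2))).card : ℝ) := by
    have h1 : ∑ q ∈ S, (((S ×ˢ T).filter
        (fun e => R1 (f q e.2) ∧ R0 (f e.1 e.2 - f q e.2))).card : ℝ) =
        ∑ b ∈ T, ∑ q ∈ S, ((S.filter (fun a => R1 (f q b) ∧ R0 (f a b - f q b))).card : ℝ) := by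
      rw [Finset.sum_comm]
      apply Finset.sum_congr rfl
      intro q hq
      rw [Finset.card_filter, Finset.sum_product_right]
      push_cast
      apply Finset.sum_congr rfl
      intro b hb
      rw [Finset.card_filter]
      push_cast
      rfl
    rw [h1]
    have h2 : ∑ b ∈ T, k b ^ 2 / 2 ≤
        ∑ b ∈ T, ∑ q ∈ S, ((S.filter (fun a => R1 (f q b) ∧ R0 (f a b - f q b))).card : ℝ) :=
      Finset.sum_le_sum (fun b _ => hb2 b)
    refine le_trans ?_ h2
    rw [← Finset.sum_div]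
    rw [hsum] at h
    have h3 : (ε * ((S.card : ℝ) * T.card)) ^ 2 ≤ (∑ b ∈ T, k b) ^ 2 :=
      pow_le_pow_left₀ (by positivity) h 2
    have h4 : (ε * ((S.card : ℝ) * T.card)) ^ 2 ≤ T.card * ∑ b ∈ T, k b ^ 2 := h3.trans hcs
    have h5 : T.card * (ε ^ 2 * (S.card : ℝ) * S.card * T.card) ≤ T.card * ∑ b ∈ T, k b ^ 2 := by
      nlinarith
    have h6 := le_of_mul_le_mul_left h5 hTpos
    linarith
  by_contra hcon
  push Not at hcon
  have h7 : ∑ q ∈ S, (((S ×ˢ T).filter
      (fun e => R1 (f q e.2) ∧ R0 (f e.1 e.2 - f q e.2))).card : ℝ) <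
      ∑ q ∈ S, ε ^ 2 / 2 * ((S.card : ℝ) * T.card) :=
    Finset.sum_lt_sum_of_nonempty hS hcon
  rw [Finset.sum_const, nsmul_eq_mul] at h7
  linarith

/-- the induction step -/
theorem dens_step (R1 R0 : ℝ → Prop) (D : ℕ)
    (hsub : ∀ r s, R1 r → R1 s → R0 (r - s) ∨ R0 (s - r))
    (hadd : ∀ r s, R1 r → R0 s → R1 (r + s))
    (hmul : ∀ w r, 0 < w → (R1 (w * r) ↔ R1 r))
    (hD : Dens R0 D) : Dens R1 (D + 1) := by
  intro ε hε
  obtain ⟨c, hc, hcD⟩ := hD ((ε / 3) ^ 2 / 2) (by positivity)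
  refine ⟨min (c * (ε / 3)) (c * ((ε / 3) ^ 2 / 2)), by positivity, ?_⟩
  intro α β S T x y hS hT h
  have hSpos : (0 : ℝ) < S.card := by exact_mod_cast card_pos.2 hS
  have hTpos : (0 : ℝ) < T.card := by exact_mod_cast card_pos.2 hT
  -- the sign class
  obtain ⟨σ, hσ⟩ : ∃ σ : SignType, ε / 3 * ((S.card : ℝ) * T.card) ≤
      ((((S.filter (fun a => SignType.sign (x a 0) = σ)) ×ˢ T).filter
        (fun e => R1 (∑ i, x e.1 i * y e.2 i))).card : ℝ) := by
    by_contra hcon
    push Not at hcon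
    have h1 : (S ×ˢ T).filter (fun e => R1 (∑ i, x e.1 i * y e.2 i)) ⊆
        (univ : Finset SignType).biUnion (fun σ =>
          ((S.filter (fun a => SignType.sign (x a 0) = σ)) ×ˢ T).filter
          (fun e => R1 (∑ i, x e.1 i * y e.2 i))) := by
      intro e he
      rw [mem_filter, mem_product] at he
      rw [mem_biUnion]
      refine ⟨SignType.sign (x e.1 0), mem_univ _, ?_⟩
      rw [mem_filter, mem_product, mem_filter]
      exact ⟨⟨⟨he.1.1, rfl⟩, he.1.2⟩, he.2⟩
    have h2 := (card_le_card h1).trans card_biUnion_le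
    have h3 : (((S ×ˢ T).filter (fun e => R1 (∑ i, x e.1 i * y e.2 i))).card : ℝ) ≤
        ∑ σ : SignType, ((((S.filter (fun a => SignType.sign (x a 0) = σ)) ×ˢ T).filter
          (fun e => R1 (∑ i, x e.1 i * y e.2 i))).card : ℝ) := by exact_mod_cast h2
    have h4 : ∑ σ : SignType, ((((S.filter (fun a => SignType.sign (x a 0) = σ)) ×ˢ T).filter
          (fun e => R1 (∑ i, x e.1 i * y e.2 i))).card : ℝ) <
        ∑ σ : SignType, ε / 3 * ((S.card : ℝ) * T.card) :=
      Finset.sum_lt_sum_of_nonempty ⟨0, mem_univ _⟩ (fun σ _ => hcon σ)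
    rw [Finset.sum_const, nsmul_eq_mul] at h4
    have h5 : ((univ : Finset SignType).card : ℝ) = 3 := by
      have : (univ : Finset SignType).card = 3 := rfl
      exact_mod_cast this
    rw [h5] at h4
    linarith
  set S' := S.filter (fun a => SignType.sign (x a 0) = σ) with hS'
  have hS'S : S' ⊆ S := filter_subset _ _
  have hcard : ((((S' ×ˢ T).filter (fun e => R1 (∑ i, x e.1 i * y e.2 i))).card : ℝ)) ≤
      (S'.card : ℝ) * T.card := by
    have := card_le_card (filter_subset (fun e => R1 (∑ i, x e.1 i * y e.2 i)) (S' ×ˢ T))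
    rw [card_product] at this
    exact_mod_cast this
  have hS'card : ε / 3 * S.card ≤ S'.card := by
    have h1 : (ε / 3 * S.card) * T.card ≤ (S'.card : ℝ) * T.card := by linarith
    exact le_of_mul_le_mul_right h1 hTpos
  have hS'pos : (0 : ℝ) < S'.card := lt_of_lt_of_le (by positivity) hS'card
  have hS'ne : S'.Nonempty := card_pos.1 (by exact_mod_cast hS'pos)
  have hS'le : (S'.card : ℝ) ≤ S.card := by exact_mod_cast card_le_card hS'S
  -- scaling
  set w : α → ℝ := fun a => if x a 0 = 0 then 1 else |x a 0|⁻¹ with hw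
  have hwpos : ∀ a, 0 < w a := by
    intro a
    rw [hw]
    simp only
    split_ifs with h0
    · norm_num
    · exact inv_pos.2 (abs_pos.2 h0)
  have hwx : ∀ a ∈ S', w a * x a 0 = (σ : ℝ) := by
    intro a ha
    rw [hS', mem_filter] at ha
    rw [← ha.2, hw]
    simp only
    split_ifs with h0
    · rw [h0]
      simp
    · have h1 := abs_mul_sign (x a 0)
      have h2 : |x a 0| ≠ 0 := abs_ne_zero.2 h0
      field_simp
      linarith
  obtain ⟨q, hq, hqc⟩ := avg S' T (fun a b => w a * ∑ i, x a i * y b i) R1 R0 hsub (ε / 3)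
    (by positivity) hS'ne hT (by
      have h1 : (S' ×ˢ T).filter (fun e => R1 (w e.1 * ∑ i, x e.1 i * y e.2 i)) =
          (S' ×ˢ T).filter (fun e => R1 (∑ i, x e.1 i * y e.2 i)) := by
        apply Finset.filter_congr
        intro e _
        exact hmul _ _ (hwpos _)
      rw [h1]
      refine le_trans ?_ hσ
      apply mul_le_mul_of_nonneg_left _ (by positivity)
      exact mul_le_mul_of_nonneg_right hS'le hTpos.le)
  set T' := T.filter (fun b => R1 (w q * ∑ i, x q i * y b i)) with hT'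
  have hT'T : T' ⊆ T := filter_subset _ _
  have hdiff : ∀ a ∈ S', ∀ b, (w a * ∑ i, x a i * y b i) - (w q * ∑ i, x q i * y b i) =
      ∑ i : Fin D, (w a * x a i.succ - w q * x q i.succ) * y b i.succ := by
    intro a ha b
    rw [Fin.sum_univ_succ, Fin.sum_univ_succ, mul_add, mul_add, ← mul_assoc, ← mul_assoc,
      hwx a ha, hwx q hq, Finset.mul_sum, Finset.mul_sum, add_sub_add_left_eq_sub,
      ← Finset.sum_sub_distrib]
    apply Finset.sum_congr rfl
    intro i _
    ring
  have hfil : (S' ×ˢ T).filter (fun e => R1 (w q * ∑ i, x q i * y e.2 i) ∧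
      R0 (w e.1 * ∑ i, x e.1 i * y e.2 i - w q * ∑ i, x q i * y e.2 i)) ⊆
      (S' ×ˢ T').filter (fun e => R0 (∑ i : Fin D,
        (w e.1 * x e.1 i.succ - w q * x q i.succ) * y e.2 i.succ)) := by
    intro e he
    have he1 := mem_filter.1 he
    have he2 := mem_product.1 he1.1
    refine mem_filter.2 ⟨mem_product.2 ⟨he2.1, mem_filter.2 ⟨he2.2, he1.2.1⟩⟩, ?_⟩
    rw [← hdiff e.1 he2.1]
    exact he1.2.2
  have hfc : (((S' ×ˢ T).filter (fun e => R1 (w q * ∑ i, x q i * y e.2 i) ∧
      R0 (w e.1 * ∑ i, x e.1 i * y e.2 i - w q * ∑ i, x q i * y e.2 i))).card : ℝ) ≤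
      (((S' ×ˢ T').filter (fun e => R0 (∑ i : Fin D,
        (w e.1 * x e.1 i.succ - w q * x q i.succ) * y e.2 i.succ))).card : ℝ) := by
    exact_mod_cast card_le_card hfil
  have hcard2 : ((((S' ×ˢ T').filter (fun e => R0 (∑ i : Fin D,
        (w e.1 * x e.1 i.succ - w q * x q i.succ) * y e.2 i.succ))).card : ℝ)) ≤
      (S'.card : ℝ) * T'.card := by
    have := card_le_card (filter_subset (fun e : α × β => R0 (∑ i : Fin D,
        (w e.1 * x e.1 i.succ - w q * x q i.succ) * y e.2 i.succ)) (S' ×ˢ T'))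
    rw [card_product] at this
    exact_mod_cast this
  have hT'card : (ε / 3) ^ 2 / 2 * T.card ≤ T'.card := by
    have h1 : S'.card * ((ε / 3) ^ 2 / 2 * T.card) ≤ (S'.card : ℝ) * T'.card := by
      have := hqc.trans (hfc.trans hcard2)
      linarith
    exact le_of_mul_le_mul_left h1 hS'pos
  have hT'pos : (0 : ℝ) < T'.card := lt_of_lt_of_le (by positivity) hT'card
  have hT'ne : T'.Nonempty := card_pos.1 (by exact_mod_cast hT'pos)
  have hT'le : (T'.card : ℝ) ≤ T.card := by exact_mod_cast card_le_card hT'T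
  obtain ⟨P, hP, Q, hQ, hPc, hQc, hPQ⟩ := hcD α β S' T'
    (fun a i => w a * x a i.succ - w q * x q i.succ) (fun b i => y b i.succ) hS'ne hT'ne (by
      refine le_trans ?_ (hqc.trans hfc)
      apply mul_le_mul_of_nonneg_left _ (by positivity)
      exact mul_le_mul_of_nonneg_left hT'le hS'pos.le)
  refine ⟨P, hP.trans hS'S, Q, hQ.trans hT'T, ?_, ?_, ?_⟩
  · refine le_trans ?_ hPc
    have h1 : min (c * (ε / 3)) (c * ((ε / 3) ^ 2 / 2)) ≤ c * (ε / 3) := min_le_left _ _
    have h2 : c * (ε / 3 * S.card) ≤ c * S'.card := mul_le_mul_of_nonneg_left hS'card hc.le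
    nlinarith
  · refine le_trans ?_ hQc
    have h1 : min (c * (ε / 3)) (c * ((ε / 3) ^ 2 / 2)) ≤ c * ((ε / 3) ^ 2 / 2) := min_le_right _ _
    have h2 : c * ((ε / 3) ^ 2 / 2 * T.card) ≤ c * T'.card :=
      mul_le_mul_of_nonneg_left hT'card hc.le
    nlinarith
  · intro a ha b hb
    have h1 := hPQ a ha b hb
    rw [← hdiff a (hP ha)] at h1
    have h2 : R1 (w q * ∑ i, x q i * y b i) := (mem_filter.1 (hQ hb)).2
    have h3 := hadd _ _ h2 h1
    rw [add_sub_cancel] at h3
    exact (hmul _ _ (hwpos a)).1 h3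

theorem dens_zero (R : ℝ → Prop) (h0 : R 0) : Dens R 0 := by
  intro ε hε
  refine ⟨1, by norm_num, ?_⟩
  intro α β S T x y hS hT h
  refine ⟨S, Subset.refl _, T, Subset.refl _, by linarith, by linarith, ?_⟩
  intro a _ b _
  rw [Finset.univ_eq_empty, Finset.sum_empty]
  exact h0

theorem dens_eq (D : ℕ) : Dens (fun r => r = 0) D := by
  induction D with
  | zero => exact dens_zero _ rfl
  | succ D ih =>
    refine dens_step _ _ D ?_ ?_ ?_ ih
    · intro r s hr hs
      left
      rw [hr, hs, sub_zero]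
    · intro r s hr hs
      rw [hr, hs, add_zero]
    · intro w r hw
      constructor
      · intro h
        exact (mul_eq_zero.1 h).resolve_left hw.ne'
      · intro h
        rw [h, mul_zero]

theorem dens_le (D : ℕ) : Dens (fun r => 0 ≤ r) D := by
  induction D with
  | zero => exact dens_zero _ (le_refl _)
  | succ D ih =>
    refine dens_step _ _ D ?_ ?_ ?_ ih
    · intro r s hr hs
      rcases le_total r s with h | h
      · right; linarith
      · left; linarith
    · intro r s hr hs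
      exact add_nonneg hr hs
    · intro w r hw
      exact mul_nonneg_iff_of_pos_left hw

theorem dens_lt (D : ℕ) : Dens (fun r => 0 < r) (D + 1) := by
  refine dens_step _ (fun r => 0 ≤ r) D ?_ ?_ ?_ (dens_le D)
  · intro r s hr hs
    rcases le_total r s with h | h
    · right; linarith
    · left; linarith
  · intro r s hr hs
    linarith
  · intro w r hw
    exact mul_pos_iff_of_pos_left hw

end Pool.Agent.X53.Bic
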