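import Mathlib

/-! Points and lines: incidences inside a biclique, and the half graph lemma. -/

namespace Pool.Agent.X53.Bic

open Finset Classical

variable {α β : Type}

/-- incidences inside a biclique of the relation (point above line) -/
theorem inc_le (X Y : α → ℕ) (A B : β → ℕ)
    (hα : ∀ p p', X p = X p' → Y p = Y p' → p = p')
    (hβ : ∀ l l', A l = A l' → B l = B l' → l = l') (P : Finset α) (Q : Finset β)
    (hbic : ∀ p ∈ P, ∀ l ∈ Q, A l * X p + B l ≤ Y p) :
    ((P ×ˢ Q).filter (fun e => A e.2 * X e.1 + B e.2 = Y e.1)).card ≤ P.card + Q.card := by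
  set I := (P ×ˢ Q).filter (fun e => A e.2 * X e.1 + B e.2 = Y e.1) with hI
  set I1 := I.filter (fun e => ∀ l ∈ Q, A l * X e.1 + B l = Y e.1 → A e.2 ≤ A l) with hI1
  set I2 := I.filter (fun e => ¬ ∀ l ∈ Q, A l * X e.1 + B l = Y e.1 → A e.2 ≤ A l) with hI2
  have hsub : I ⊆ I1 ∪ I2 := by
    intro e he
    rw [mem_union]
    by_cases h : ∀ l ∈ Q, A l * X e.1 + B l = Y e.1 → A e.2 ≤ A l
    · exact Or.inl (mem_filter.2 ⟨he, h⟩)
    · exact Or.inr (mem_filter.2 ⟨he, h⟩)
  have hmem : ∀ e ∈ I, e.1 ∈ P ∧ e.2 ∈ Q ∧ A e.2 * X e.1 + B e.2 = Y e.1 := by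
    intro e he
    rw [hI, mem_filter, mem_product] at he
    exact ⟨he.1.1, he.1.2, he.2⟩
  have h1 : I1.card ≤ P.card := by
    apply Finset.card_le_card_of_injOn (fun e => e.1)
    · intro e he
      have he' : e ∈ I1 := he
      rw [hI1, mem_filter] at he'
      exact (hmem e he'.1).1
    · intro e he e' he' hee
      have h2 : e ∈ I1 := he
      have h3 : e' ∈ I1 := he'
      have hee' : e.1 = e'.1 := hee
      rw [hI1, mem_filter] at h2 h3
      obtain ⟨m1, m2, m3⟩ := hmem e h2.1
      obtain ⟨n1, n2, n3⟩ := hmem e' h3.1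
      have a1 : A e.2 ≤ A e'.2 := h2.2 e'.2 n2 (by rw [hee']; exact n3)
      have a2 : A e'.2 ≤ A e.2 := h3.2 e.2 m2 (by rw [← hee']; exact m3)
      have a3 : A e.2 = A e'.2 := le_antisymm a1 a2
      have a4 : B e.2 = B e'.2 := by
        rw [a3, hee'] at m3
        omega
      exact Prod.ext hee' (hβ _ _ a3 a4)
  have key : ∀ e ∈ I2, ∀ e' ∈ I2, e.2 = e'.2 → ¬ X e.1 < X e'.1 := by
    intro e he e' he' hee hlt
    rw [hI2, mem_filter] at he he'
    obtain ⟨m1, m2, m3⟩ := hmem e he.1
    obtain ⟨n1, n2, n3⟩ := hmem e' he'.1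
    have h5 := he'.2
    push Not at h5
    obtain ⟨l, hl, hl2, hl3⟩ := h5
    have h6 := hbic e.1 m1 l hl
    rw [hee] at m3
    obtain ⟨d, hd⟩ : ∃ d, A e'.2 = A l + d := ⟨A e'.2 - A l, by omega⟩
    have hd0 : 0 < d := by omega
    rw [hd, add_mul] at m3 n3
    have h7 : d * X e'.1 ≤ d * X e.1 := by omega
    have h8 := Nat.le_of_mul_le_mul_left h7 hd0
    omega
  have h2 : I2.card ≤ Q.card := by
    apply Finset.card_le_card_of_injOn (fun e => e.2)
    · intro e he
      have he' : e ∈ I2 := he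
      rw [hI2, mem_filter] at he'
      exact (hmem e he'.1).2.1
    · intro e he e' he' hee
      have h3 : e ∈ I2 := he
      have h4 : e' ∈ I2 := he'
      have hee' : e.2 = e'.2 := hee
      have k1 := key e h3 e' h4 hee'
      have k2 := key e' h4 e h3 hee'.symm
      have hX : X e.1 = X e'.1 := by omega
      rw [hI2, mem_filter] at h3 h4
      obtain ⟨m1, m2, m3⟩ := hmem e h3.1
      obtain ⟨n1, n2, n3⟩ := hmem e' h4.1
      have hY : Y e.1 = Y e'.1 := by
        rw [← m3, ← n3, hee', hX]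
      exact Prod.ext (hα _ _ hX hY) hee'
  calc I.card ≤ (I1 ∪ I2).card := card_le_card hsub
    _ ≤ I1.card + I2.card := card_union_le _ _
    _ ≤ P.card + Q.card := by omega

/-- harmonic mean weight of a biclique -/
noncomputable def harm (a b : ℕ) : ℝ := ((a : ℝ) * b) / (a + b)

/-- the half graph lemma -/
theorem half_graph (U : Finset α) (V : Finset β) (s : α → ℤ) (t : β → ℤ) (K : ℝ)
    (hK0 : 0 ≤ K)
    (hK : ∀ P ⊆ U, ∀ Q ⊆ V, P.Nonempty → Q.Nonempty → (∀ p ∈ P, ∀ q ∈ Q, t q ≤ s p) →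
      harm P.card Q.card ≤ K) :
    (((U ×ˢ V).filter (fun e => t e.2 ≤ s e.1)).card : ℝ) ≤ 2 * K * (U.card + V.card) := by
  have hsum : (((U ×ˢ V).filter (fun e => t e.2 ≤ s e.1)).card : ℝ)
      = ∑ u ∈ U, ((V.filter (fun v => t v ≤ s u)).card : ℝ) := by
    rw [Finset.card_filter, Finset.sum_product]
    push_cast
    apply Finset.sum_congr rfl
    intro u hu
    rw [Finset.card_filter]
    push_cast
    rfl
  have hineq : ∀ u ∈ U, (((U.filter (fun u' => s u ≤ s u')).card : ℝ) *
      ((V.filter (fun v => t v ≤ s u)).card : ℝ)) ≤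
      K * ((U.filter (fun u' => s u ≤ s u')).card + (V.filter (fun v => t v ≤ s u)).card) := by
    intro u hu
    have hPne : (U.filter (fun u' => s u ≤ s u')).Nonempty :=
      ⟨u, mem_filter.2 ⟨hu, le_refl _⟩⟩
    have hPpos : (0 : ℝ) < (U.filter (fun u' => s u ≤ s u')).card := by
      exact_mod_cast card_pos.2 hPne
    rcases (V.filter (fun v => t v ≤ s u)).eq_empty_or_nonempty with hQ | hQ
    · rw [hQ, card_empty]
      push_cast
      rw [mul_zero]
      positivity
    · have h := hK _ (filter_subset _ _) _ (filter_subset _ _) hPne hQ (by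
        intro p hp q hq
        rw [mem_filter] at hp hq
        exact le_trans hq.2 hp.2)
      unfold harm at h
      have hQpos : (0 : ℝ) < (V.filter (fun v => t v ≤ s u)).card := by
        exact_mod_cast card_pos.2 hQ
      rw [div_le_iff₀ (by linarith)] at h
      exact h
  rw [hsum]
  set bad := U.filter (fun u => ((U.filter (fun u' => s u ≤ s u')).card : ℝ) ≤ 2 * K) with hbad
  set good := U.filter (fun u => ¬ ((U.filter (fun u' => s u ≤ s u')).card : ℝ) ≤ 2 * K) with hgood
  have hsplit : ∑ u ∈ U, ((V.filter (fun v => t v ≤ s u)).card : ℝ)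
      = ∑ u ∈ bad, ((V.filter (fun v => t v ≤ s u)).card : ℝ)
        + ∑ u ∈ good, ((V.filter (fun v => t v ≤ s u)).card : ℝ) :=
    (Finset.sum_filter_add_sum_filter_not U _ _).symm
  have hgoodle : ∑ u ∈ good, ((V.filter (fun v => t v ≤ s u)).card : ℝ) ≤ good.card * (2 * K) := by
    rw [← nsmul_eq_mul]
    apply Finset.sum_le_card_nsmul
    intro u hu
    rw [hgood, mem_filter, not_le] at hu
    have h := hineq u hu.1
    have h2 := hu.2
    set p := ((U.filter (fun u' => s u ≤ s u')).card : ℝ)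
    set q := ((V.filter (fun v => t v ≤ s u)).card : ℝ)
    have hq : 0 ≤ q := Nat.cast_nonneg _
    by_contra hcon
    push Not at hcon
    -- p q ≤ K p + K q, p > 2K, q > 2K
    nlinarith [mul_pos (sub_pos.2 h2) (sub_pos.2 hcon)]
  have hbadcard : (bad.card : ℝ) ≤ 2 * K := by
    rcases bad.eq_empty_or_nonempty with hb | hb
    · rw [hb, card_empty]
      push_cast
      linarith
    · obtain ⟨u0, hu0, hmin⟩ := Finset.exists_min_image bad s hb
      have hsub : bad ⊆ U.filter (fun u' => s u0 ≤ s u') := by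
        intro u hu
        rw [mem_filter]
        exact ⟨(mem_filter.1 hu).1, hmin u hu⟩
      have h1 := (mem_filter.1 hu0).2
      have h2 : (bad.card : ℝ) ≤ (U.filter (fun u' => s u0 ≤ s u')).card := by
        exact_mod_cast card_le_card hsub
      linarith
  have hbadle : ∑ u ∈ bad, ((V.filter (fun v => t v ≤ s u)).card : ℝ) ≤ bad.card * V.card := by
    rw [← nsmul_eq_mul]
    apply Finset.sum_le_card_nsmul
    intro u hu
    exact_mod_cast card_le_card (filter_subset _ _)
  have hgc : (good.card : ℝ) ≤ U.card := by exact_mod_cast card_le_card (filter_subset _ _)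
  have hV : (0 : ℝ) ≤ V.card := Nat.cast_nonneg _
  rw [hsplit]
  have e1 : (bad.card : ℝ) * V.card ≤ 2 * K * V.card := mul_le_mul_of_nonneg_right hbadcard hV
  have e2 : (good.card : ℝ) * (2 * K) ≤ U.card * (2 * K) :=
    mul_le_mul_of_nonneg_right hgc (by linarith)
  linarith

end Pool.Agent.X53.Bic
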