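import Mathlib
import Pool.Agent.X53.Bic.Core

/-! A shallow cutting for lines: few cores. -/

namespace Pool.Agent.X53.Bic

open Finset Classical

variable {β : Type} (A B : β → ℕ) (T : Finset β)

/-- `v` is below `u` at abscissa `x` -/
def below (x : ℕ) (v u : β) : Prop :=
  A v * x + B v < A u * x + B u ∨ (A v * x + B v = A u * x + B u ∧ A v < A u)

/-- rank of `u` at `x` -/
noncomputable def rk (x : ℕ) (u : β) : ℕ := (T.filter (fun v => below A B x v u)).card

/-- the `D` lowest lines at `x` -/
noncomputable def Lw (D x : ℕ) : Finset β := T.filter (fun u => rk A B T x u < D)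

noncomputable def inc (x : ℕ) (u : β) : ℕ :=
  (T.filter (fun v => A v < A u ∧ A v * x + B v ≤ A u * x + B u)).card

noncomputable def dec (x : ℕ) (u : β) : ℕ :=
  (T.filter (fun v => ¬ A v < A u ∧ A v * x + B v < A u * x + B u)).card

theorem rk_eq (x : ℕ) (u : β) : rk A B T x u = inc A B T x u + dec A B T x u := by
  unfold rk inc dec
  rw [← card_union_of_disjoint]
  · congr 1
    ext v
    rw [mem_union, mem_filter, mem_filter, mem_filter]
    unfold below
    constructor
    · rintro ⟨h, h1 | h1⟩
      · by_cases h2 : A v < A u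
        · exact Or.inl ⟨h, h2, h1.le⟩
        · exact Or.inr ⟨h, h2, h1⟩
      · exact Or.inl ⟨h, h1.2, h1.1.le⟩
    · rintro (⟨h, h1, h2⟩ | ⟨h, h1, h2⟩)
      · refine ⟨h, ?_⟩
        rcases h2.lt_or_eq with h3 | h3
        · exact Or.inl h3
        · exact Or.inr ⟨h3, h1⟩
      · exact ⟨h, Or.inl h2⟩
  · rw [Finset.disjoint_left]
    intro v h1 h2
    exact (mem_filter.1 h2).2.1 (mem_filter.1 h1).2.1

theorem inc_mono (u : β) : Monotone (fun x => inc A B T x u) := by
  apply monotone_nat_of_le_succ
  intro x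
  apply card_le_card
  intro v hv
  rw [mem_filter] at hv ⊢
  refine ⟨hv.1, hv.2.1, ?_⟩
  have h1 := hv.2.1
  have h2 := hv.2.2
  rw [mul_add, mul_add]
  omega

theorem dec_anti (x : ℕ) (u : β) : dec A B T (x + 1) u ≤ dec A B T x u := by
  apply card_le_card
  intro v hv
  rw [mem_filter] at hv ⊢
  refine ⟨hv.1, hv.2.1, ?_⟩
  have h1 := hv.2.1
  have h2 := hv.2.2
  rw [mul_add, mul_add] at h2
  omega

/-- total number of departures from the low levels -/
theorem variation (D M : ℕ) :
    ∑ D' ∈ Ioc D (2 * D), ∑ x ∈ range M, (Lw A B T D' x \ Lw A B T D' (x + 1)).card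
      ≤ T.card * (2 * D) := by
  have h1 : ∀ D' x, (Lw A B T D' x \ Lw A B T D' (x + 1)).card
      = ∑ u ∈ T, if rk A B T x u < D' ∧ D' ≤ rk A B T (x + 1) u then 1 else 0 := by
    intro D' x
    rw [← Finset.card_filter]
    congr 1
    ext u
    unfold Lw
    rw [mem_sdiff, mem_filter, mem_filter, mem_filter]
    constructor
    · rintro ⟨⟨h2, h3⟩, h4⟩
      refine ⟨h2, h3, ?_⟩
      by_contra h5
      exact h4 ⟨h2, by omega⟩
    · rintro ⟨h2, h3, h4⟩
      exact ⟨⟨h2, h3⟩, fun h5 => by omega⟩
  have h2 : ∑ D' ∈ Ioc D (2 * D), ∑ x ∈ range M, (Lw A B T D' x \ Lw A B T D' (x + 1)).card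
      = ∑ u ∈ T, ∑ x ∈ range M, ∑ D' ∈ Ioc D (2 * D),
        if rk A B T x u < D' ∧ D' ≤ rk A B T (x + 1) u then 1 else 0 := by
    simp_rw [h1]
    rw [Finset.sum_comm]
    rw [Finset.sum_comm' (s := T) (t' := range M) (s' := fun _ => T) (t := fun _ => range M)
      (by intro a b; constructor <;> (rintro ⟨h3, h4⟩; exact ⟨h3, h4⟩))]
    apply Finset.sum_congr rfl
    intro x _
    rw [Finset.sum_comm]
  rw [h2, ← smul_eq_mul]
  apply Finset.sum_le_card_nsmul
  intro u _
  have h3 : ∀ x ∈ range M, (∑ D' ∈ Ioc D (2 * D),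
      if rk A B T x u < D' ∧ D' ≤ rk A B T (x + 1) u then 1 else 0) ≤
      min (inc A B T (x + 1) u) (2 * D) - min (inc A B T x u) (2 * D) := by
    intro x _
    rw [← Finset.card_filter]
    have h4 : ((Ioc D (2 * D)).filter (fun D' => rk A B T x u < D' ∧
        D' ≤ rk A B T (x + 1) u)).card ≤
        (Ioc (rk A B T x u) (min (rk A B T (x + 1) u) (2 * D))).card := by
      apply card_le_card
      intro D' hD'
      rw [mem_filter, mem_Ioc] at hD'
      rw [mem_Ioc]
      exact ⟨hD'.2.1, le_min hD'.2.2 hD'.1.2⟩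
    refine h4.trans ?_
    rw [Nat.card_Ioc]
    have h5 := rk_eq A B T x u
    have h6 := rk_eq A B T (x + 1) u
    have h7 := dec_anti A B T x u
    have h8 : inc A B T x u ≤ inc A B T (x + 1) u := inc_mono A B T u (Nat.le_succ x)
    omega
  refine (Finset.sum_le_sum h3).trans ?_
  have hmono : Monotone (fun x => min (inc A B T x u) (2 * D)) := by
    intro x y hxy
    have : inc A B T x u ≤ inc A B T y u := inc_mono A B T u hxy
    show min (inc A B T x u) (2 * D) ≤ min (inc A B T y u) (2 * D)
    omega
  have h9 := Finset.sum_range_tsub hmono M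
  rw [h9]
  show min (inc A B T M u) (2 * D) - min (inc A B T 0 u) (2 * D) ≤ 2 * D
  omega

theorem exists_level (D M : ℕ) (hD : 0 < D) : ∃ D', D < D' ∧ D' ≤ 2 * D ∧
    ∑ x ∈ range M, (Lw A B T D' x \ Lw A B T D' (x + 1)).card ≤ 2 * T.card := by
  have hne : (Ioc D (2 * D)).Nonempty := by
    rw [nonempty_Ioc]
    omega
  obtain ⟨D', hD', h⟩ := Finset.exists_le_of_sum_le hne
    (f := fun D' => ∑ x ∈ range M, (Lw A B T D' x \ Lw A B T D' (x + 1)).card)
    (g := fun _ => 2 * T.card) (by
      refine (variation A B T D M).trans ?_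
      rw [Finset.sum_const, Nat.card_Ioc, smul_eq_mul]
      have : 2 * D - D = D := by omega
      rw [this]
      apply le_of_eq
      ring)
  rw [mem_Ioc] at hD'
  exact ⟨D', hD'.1, hD'.2, h⟩

theorem below_trans {x : ℕ} {v u z : β} (h1 : below A B x v u) (h2 : below A B x u z) :
    below A B x v z := by
  unfold below at *
  omega

theorem rk_lt {x : ℕ} {v u : β} (hv : v ∈ T) (h : below A B x v u) :
    rk A B T x v < rk A B T x u := by
  apply card_lt_card
  rw [Finset.ssubset_iff_of_subset]
  · refine ⟨v, mem_filter.2 ⟨hv, h⟩, fun h2 => ?_⟩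
    have h3 := (mem_filter.1 h2).2
    unfold below at h3
    omega
  · intro z hz
    rw [mem_filter] at hz ⊢
    exact ⟨hz.1, below_trans A B hz.2 h⟩

theorem card_Lw (hβ : ∀ l l', A l = A l' → B l = B l' → l = l') (D x : ℕ) (hD : D ≤ T.card) :
    D ≤ (Lw A B T D x).card := by
  have hinj : Set.InjOn (fun u => rk A B T x u) (T : Set β) := by
    intro u hu u' hu' huu
    by_contra hne
    have huu' : rk A B T x u = rk A B T x u' := huu
    have htri : below A B x u u' ∨ below A B x u' u := by
      by_contra hcon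
      push Not at hcon
      unfold below at hcon
      have hA : A u = A u' := by omega
      have hB : B u = B u' := by
        rw [hA] at hcon
        omega
      exact hne (hβ _ _ hA hB)
    rcases htri with h | h
    · have := rk_lt A B T hu h
      omega
    · have := rk_lt A B T hu' h
      omega
  have himg : T.image (fun u => rk A B T x u) = range T.card := by
    apply Finset.eq_of_subset_of_card_le
    · intro r hr
      rw [mem_image] at hr
      obtain ⟨u, hu, rfl⟩ := hr
      rw [mem_range]
      apply card_lt_card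
      rw [Finset.ssubset_iff_of_subset (filter_subset _ _)]
      refine ⟨u, hu, fun h2 => ?_⟩
      have h3 := (mem_filter.1 h2).2
      unfold below at h3
      omega
    · rw [card_image_of_injOn hinj, card_range]
  have h1 : range D ⊆ (Lw A B T D x).image (fun u => rk A B T x u) := by
    intro r hr
    rw [mem_range] at hr
    have h2 : r ∈ T.image (fun u => rk A B T x u) := by
      rw [himg, mem_range]
      omega
    rw [mem_image] at h2
    obtain ⟨u, hu, hur⟩ := h2
    rw [mem_image]
    refine ⟨u, mem_filter.2 ⟨hu, ?_⟩, hur⟩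
    have hur' : rk A B T x u = r := hur
    omega
  calc D = (range D).card := (card_range D).symm
    _ ≤ ((Lw A B T D x).image (fun u => rk A B T x u)).card := card_le_card h1
    _ ≤ (Lw A B T D x).card := card_image_le

/-- lines that are lost between `x0` and `x1` -/
noncomputable def lost (D x0 x1 : ℕ) : Finset β :=
  T.filter (fun u => u ∈ Lw A B T D x0 ∧ ∃ x, x0 ≤ x ∧ x ≤ x1 ∧ u ∉ Lw A B T D x)

theorem lost_card (D x0 k : ℕ) : (lost A B T D x0 (x0 + k)).card +
    ∑ x ∈ range x0, (Lw A B T D x \ Lw A B T D (x + 1)).card ≤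
    ∑ x ∈ range (x0 + k), (Lw A B T D x \ Lw A B T D (x + 1)).card := by
  induction k with
  | zero =>
    have h : lost A B T D x0 (x0 + 0) = ∅ := by
      rw [Finset.eq_empty_iff_forall_notMem]
      intro u hu
      unfold lost at hu
      rw [mem_filter] at hu
      obtain ⟨-, h1, x, h2, h3, h4⟩ := hu
      have : x = x0 := by omega
      rw [this] at h4
      exact h4 h1
    rw [h, card_empty]
    simp
  | succ k ih =>
    have hsub : lost A B T D x0 (x0 + (k + 1)) ⊆ lost A B T D x0 (x0 + k) ∪
        (Lw A B T D (x0 + k) \ Lw A B T D (x0 + k + 1)) := by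
      intro u hu
      rw [mem_union]
      by_cases h : u ∈ lost A B T D x0 (x0 + k)
      · exact Or.inl h
      · right
        unfold lost at hu h
        rw [mem_filter] at hu h
        obtain ⟨h0, h1, x, h2, h3, h4⟩ := hu
        have hin : ∀ x, x0 ≤ x → x ≤ x0 + k → u ∈ Lw A B T D x := by
          intro x' h5 h6
          by_contra h7
          exact h ⟨h0, h1, x', h5, h6, h7⟩
        have hx : x = x0 + k + 1 := by
          by_contra h8
          exact h4 (hin x h2 (by omega))
        rw [mem_sdiff]
        refine ⟨hin _ (by omega) (le_refl _), ?_⟩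
        rw [← hx]
        exact h4
    have h1 := card_le_card hsub
    have h2 := card_union_le (lost A B T D x0 (x0 + k))
      (Lw A B T D (x0 + k) \ Lw A B T D (x0 + k + 1))
    rw [← add_assoc, Finset.sum_range_succ]
    have h3 : x0 + (k + 1) = x0 + k + 1 := rfl
    rw [h3] at h1
    omega

end Pool.Agent.X53.Bic
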