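import Mathlib
import Pool.Agent.X53.Bic.Cut

/-! Few edges unless there is a large biclique. -/

namespace Pool.Agent.X53.Bic

open Finset Classical

variable {α β : Type}

/-- edges of the induced subgraph -/
noncomputable def edg (X Y : α → ℕ) (A B : β → ℕ) (S : Finset α) (T : Finset β) : Finset (α × β) :=
  (S ×ˢ T).filter (fun e => A e.2 * X e.1 + B e.2 ≤ Y e.1)

/-- all bicliques of the induced subgraph have harmonic weight at most `K` -/
def Bd (X Y : α → ℕ) (A B : β → ℕ) (S : Finset α) (T : Finset β) (K : ℝ) : Prop :=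
  ∀ P ⊆ S, ∀ Q ⊆ T, P.Nonempty → Q.Nonempty → (∀ p ∈ P, ∀ q ∈ Q, A q * X p + B q ≤ Y p) →
    harm P.card Q.card ≤ K

/-- degree of a point -/
noncomputable def dg (X Y : α → ℕ) (A B : β → ℕ) (T : Finset β) (p : α) : ℕ :=
  (T.filter (fun v => A v * X p + B v ≤ Y p)).card

theorem Lw_sub (X Y : α → ℕ) (A B : β → ℕ) (T : Finset β) (p : α) (D : ℕ)
    (h : D ≤ dg X Y A B T p) : ∀ u ∈ Lw A B T D (X p), A u * X p + B u ≤ Y p := by
  intro u hu
  by_contra hcon
  push Not at hcon
  unfold Lw at hu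
  rw [mem_filter] at hu
  have h1 : (T.filter (fun v => A v * X p + B v ≤ Y p)) ⊆
      T.filter (fun v => below A B (X p) v u) := by
    intro v hv
    rw [mem_filter] at hv ⊢
    exact ⟨hv.1, Or.inl (lt_of_le_of_lt hv.2 hcon)⟩
  have h2 := card_le_card h1
  have h3 := hu.2
  unfold rk at h3
  unfold dg at h
  omega

theorem heavy_bound (X Y : α → ℕ) (A B : β → ℕ) (hβ : ∀ l l', A l = A l' → B l = B l' → l = l')
    (S : Finset α) (T : Finset β) (M : ℕ) (hX : ∀ p ∈ S, X p < M) (K : ℝ) (hK0 : 0 < K)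
    (hK : Bd X Y A B S T K) (D : ℕ) (hD : 0 < D) (hDK : 4 * K ≤ D) :
    ((S.filter (fun p => 2 * D ≤ dg X Y A B T p)).card : ℝ) * D ≤ 9 * K * T.card := by
  set H := S.filter (fun p => 2 * D ≤ dg X Y A B T p) with hH
  rcases H.eq_empty_or_nonempty with hemp | ⟨q, hq⟩
  · rw [hemp, card_empty]
    push_cast
    rw [zero_mul]
    positivity
  have hDT : 2 * D ≤ T.card := by
    refine (mem_filter.1 hq).2.trans ?_
    exact card_le_card (filter_subset _ _)
  obtain ⟨D', hD1, hD2, hV⟩ := exists_level A B T D M hD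
  set c : ℕ → ℕ := fun x => ∑ x' ∈ range x, (Lw A B T D' x' \ Lw A B T D' (x' + 1)).card with hc
  set h := D' / 2 + 1 with hh
  have hcV : c M ≤ 2 * T.card := hV
  have hcmono : ∀ x, x ≤ M → c x ≤ c M := by
    intro x hx
    apply Finset.sum_le_sum_of_subset
    exact range_subset_range.2 hx
  -- each group is small
  have hgroup : ∀ i, ((H.filter (fun p => c (X p) / h = i)).card : ℝ) ≤ 2 * K := by
    intro i
    set P := H.filter (fun p => c (X p) / h = i) with hP
    rcases P.eq_empty_or_nonempty with hPe | hPn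
    · rw [hPe, card_empty]
      push_cast
      linarith
    obtain ⟨p0, hp0, hmin⟩ := Finset.exists_min_image P X hPn
    obtain ⟨p1, hp1, hmax⟩ := Finset.exists_max_image P X hPn
    set core := T.filter (fun u => ∀ p ∈ P, u ∈ Lw A B T D' (X p)) with hcore
    have hPH : ∀ p ∈ P, p ∈ S ∧ 2 * D ≤ dg X Y A B T p := by
      intro p hp
      exact mem_filter.1 (mem_filter.1 hp).1
    have hsub : Lw A B T D' (X p0) ⊆ core ∪ lost A B T D' (X p0) (X p1) := by
      intro u hu
      have huT : u ∈ T := (mem_filter.1 hu).1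
      rw [mem_union]
      by_cases hc1 : ∀ p ∈ P, u ∈ Lw A B T D' (X p)
      · exact Or.inl (mem_filter.2 ⟨huT, hc1⟩)
      · right
        push Not at hc1
        obtain ⟨p, hp, hpu⟩ := hc1
        exact mem_filter.2 ⟨huT, hu, X p, hmin p hp, hmax p hp, hpu⟩
    have h1 := card_le_card hsub
    have h2 := card_union_le core (lost A B T D' (X p0) (X p1))
    have h3 := card_Lw A B T hβ D' (X p0) (by omega)
    have h4 : X p0 ≤ X p1 := hmin p1 hp1
    have h5 := lost_card A B T D' (X p0) (X p1 - X p0)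
    have h6 : X p0 + (X p1 - X p0) = X p1 := by omega
    rw [h6] at h5
    have h7 : (lost A B T D' (X p0) (X p1)).card + c (X p0) ≤ c (X p1) := h5
    have h8 : c (X p0) / h = i := (mem_filter.1 hp0).2
    have h9 : c (X p1) / h = i := (mem_filter.1 hp1).2
    have h10 : c (X p1) < c (X p0) + h := by
      have e1 := Nat.div_add_mod (c (X p0)) h
      have e2 := Nat.div_add_mod (c (X p1)) h
      have e3 : c (X p1) % h < h := Nat.mod_lt _ (by omega)
      rw [h8] at e1
      rw [h9] at e2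
      omega
    have hcc : D' ≤ 2 * core.card := by omega
    have hcc' : 4 * K ≤ 2 * (core.card : ℝ) := by
      have : (D' : ℝ) ≤ 2 * (core.card : ℝ) := by exact_mod_cast hcc
      have h11 : (D : ℝ) ≤ D' := by exact_mod_cast hD1.le
      linarith
    have hcn : core.Nonempty := by
      rw [← card_pos]
      omega
    have hb := hK P (fun p hp => (hPH p hp).1) core (filter_subset _ _) hPn hcn (by
      intro p hp u hu
      have h12 := (mem_filter.1 hu).2 p hp
      exact Lw_sub X Y A B T p D' (by have := (hPH p hp).2; omega) u h12)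
    unfold harm at hb
    have hPpos : (0 : ℝ) < P.card := by exact_mod_cast card_pos.2 hPn
    have hcpos : (0 : ℝ) < core.card := by exact_mod_cast card_pos.2 hcn
    rw [div_le_iff₀ (by linarith)] at hb
    by_contra hcon
    push Not at hcon
    nlinarith [mul_lt_mul_of_pos_right hcon hK0]
  -- number of groups
  have hsum : H.card = ∑ i ∈ range (2 * T.card / h + 1),
      (H.filter (fun p => c (X p) / h = i)).card := by
    apply Finset.card_eq_sum_card_fiberwise
    intro p hp
    have hpS : p ∈ S := (mem_filter.1 (show p ∈ H from hp)).1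
    show c (X p) / h ∈ ((range (2 * T.card / h + 1) : Finset ℕ) : Set ℕ)
    rw [mem_coe, mem_range]
    have h1 := hcmono (X p) (hX p hpS).le
    have h2 : c (X p) / h ≤ 2 * T.card / h := Nat.div_le_div_right (by omega)
    omega
  have hH2 : (H.card : ℝ) ≤ ((2 * T.card / h + 1 : ℕ) : ℝ) * (2 * K) := by
    rw [hsum]
    push_cast
    have := Finset.sum_le_card_nsmul (range (2 * T.card / h + 1))
      (fun i => ((H.filter (fun p => c (X p) / h = i)).card : ℝ)) (2 * K) (fun i _ => hgroup i)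
    rw [card_range, nsmul_eq_mul] at this
    push_cast at this
    exact this
  have hG : ((2 * T.card / h + 1 : ℕ) : ℝ) * D ≤ 9 / 2 * T.card := by
    have h1 : (2 * T.card / h) * h ≤ 2 * T.card := Nat.div_mul_le_self _ _
    have h2 : (2 * T.card / h) * D ≤ (2 * T.card / h) * (2 * h) :=
      Nat.mul_le_mul_left _ (by omega)
    have h3 : (2 * T.card / h + 1) * D * 2 ≤ 9 * T.card := by
      have h4 : (2 * T.card / h) * (2 * h) = 2 * ((2 * T.card / h) * h) := by ring
      have h5 : (2 * T.card / h + 1) * D * 2 = 2 * ((2 * T.card / h) * D) + 2 * D := by ring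
      omega
    have h6 : ((2 * T.card / h + 1 : ℕ) : ℝ) * D * 2 ≤ 9 * T.card := by exact_mod_cast h3
    linarith
  have hDpos : (0 : ℝ) < D := by exact_mod_cast hD
  calc (H.card : ℝ) * D ≤ ((2 * T.card / h + 1 : ℕ) : ℝ) * (2 * K) * D :=
        mul_le_mul_of_nonneg_right hH2 hDpos.le
    _ = 2 * K * (((2 * T.card / h + 1 : ℕ) : ℝ) * D) := by ring
    _ ≤ 2 * K * (9 / 2 * T.card) := mul_le_mul_of_nonneg_left hG (by linarith)
    _ = 9 * K * T.card := by ring

theorem dyadic (J d t : ℕ) (h : d < 2 ^ (J + 1 + t)) :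
    d ≤ 2 ^ (J + 1) + ∑ i ∈ range t, (if 2 * 2 ^ (J + i) ≤ d then 4 * 2 ^ (J + i) else 0) := by
  induction t with
  | zero =>
    rw [range_zero, sum_empty]
    have h1 : J + 1 + 0 = J + 1 := rfl
    rw [h1] at h
    omega
  | succ t ih =>
    rw [Finset.sum_range_succ]
    have e1 : 2 ^ (J + 1 + (t + 1)) = 4 * 2 ^ (J + t) := by ring
    have e2 : 2 ^ (J + 1 + t) = 2 * 2 ^ (J + t) := by ring
    by_cases h1 : d < 2 ^ (J + 1 + t)
    · have := ih h1
      omega
    · rw [e2] at h1
      rw [if_pos (by omega)]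
      rw [e1] at h
      have h0 : 0 < 2 ^ J := Nat.pos_of_ne_zero (by positivity)
      omega

/-- the main inequality -/
theorem edge_bound (X Y : α → ℕ) (A B : β → ℕ)
    (hβ : ∀ l l', A l = A l' → B l = B l' → l = l')
    (S : Finset α) (T : Finset β) (M : ℕ) (hX : ∀ p ∈ S, X p < M) (K : ℝ) (hK1 : 1 / 2 ≤ K)
    (hK : Bd X Y A B S T K) :
    ((edg X Y A B S T).card : ℝ) ≤ K * (16 * S.card + 36 * T.card * Nat.log 2 T.card) := by
  have hK0 : 0 < K := by linarith
  obtain ⟨n, hn1, hn2⟩ := exists_nat_pow_near (show (1 : ℝ) ≤ 4 * K by linarith)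
    (show (1 : ℝ) < 2 by norm_num)
  set t := Nat.log 2 T.card with ht
  have he : (edg X Y A B S T).card = ∑ p ∈ S, dg X Y A B T p := by
    unfold edg dg
    rw [Finset.card_filter, Finset.sum_product]
    apply Finset.sum_congr rfl
    intro p _
    rw [Finset.card_filter]
  have hd : ∀ p ∈ S, dg X Y A B T p ≤ 2 ^ (n + 1 + 1) + ∑ i ∈ range t,
      (if 2 * 2 ^ (n + 1 + i) ≤ dg X Y A B T p then 4 * 2 ^ (n + 1 + i) else 0) := by
    intro p _
    apply dyadic
    have h1 : dg X Y A B T p ≤ T.card := card_le_card (filter_subset _ _)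
    have h2 : T.card < 2 ^ (Nat.log 2 T.card + 1) := Nat.lt_pow_succ_log_self (by norm_num) _
    have h3 : 2 ^ (Nat.log 2 T.card + 1) ≤ 2 ^ (n + 1 + 1 + t) :=
      Nat.pow_le_pow_right (by norm_num) (by omega)
    omega
  have h1 : (edg X Y A B S T).card ≤ S.card * 2 ^ (n + 1 + 1) + ∑ i ∈ range t,
      4 * ((S.filter (fun p => 2 * 2 ^ (n + 1 + i) ≤ dg X Y A B T p)).card * 2 ^ (n + 1 + i)) := by
    rw [he]
    refine (Finset.sum_le_sum hd).trans ?_
    rw [Finset.sum_add_distrib, Finset.sum_const, smul_eq_mul, Finset.sum_comm]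
    apply Nat.add_le_add_left
    apply Finset.sum_le_sum
    intro i _
    rw [← Finset.sum_filter, Finset.sum_const, smul_eq_mul]
    apply le_of_eq
    ring
  have h2 : ((edg X Y A B S T).card : ℝ) ≤ S.card * 2 ^ (n + 1 + 1) + ∑ i ∈ range t,
      4 * (((S.filter (fun p => 2 * 2 ^ (n + 1 + i) ≤ dg X Y A B T p)).card : ℝ)
        * 2 ^ (n + 1 + i)) := by
    exact_mod_cast h1
  have h3 : ∑ i ∈ range t,
      4 * (((S.filter (fun p => 2 * 2 ^ (n + 1 + i) ≤ dg X Y A B T p)).card : ℝ)
        * 2 ^ (n + 1 + i)) ≤ t * (36 * K * T.card) := by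
    have h4 := Finset.sum_le_card_nsmul (range t) (fun i =>
      4 * (((S.filter (fun p => 2 * 2 ^ (n + 1 + i) ≤ dg X Y A B T p)).card : ℝ)
        * 2 ^ (n + 1 + i))) (36 * K * T.card) (by
      intro i _
      have h5 := heavy_bound X Y A B hβ S T M hX K hK0 hK (2 ^ (n + 1 + i))
        (Nat.pos_of_ne_zero (by positivity)) (by
          push_cast
          have h6 : (2 : ℝ) ^ (n + 1) ≤ 2 ^ (n + 1 + i) :=
            pow_le_pow_right₀ (by norm_num) (by omega)
          linarith)
      push_cast at h5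
      show 4 * (((S.filter (fun p => 2 * 2 ^ (n + 1 + i) ≤ dg X Y A B T p)).card : ℝ)
        * 2 ^ (n + 1 + i)) ≤ 36 * K * T.card
      linarith)
    rw [card_range, nsmul_eq_mul] at h4
    exact h4
  have h7 : (S.card : ℝ) * 2 ^ (n + 1 + 1) ≤ S.card * (16 * K) := by
    apply mul_le_mul_of_nonneg_left _ (Nat.cast_nonneg _)
    have : (2 : ℝ) ^ (n + 1 + 1) = 4 * 2 ^ n := by ring
    rw [this]
    linarith
  calc ((edg X Y A B S T).card : ℝ) ≤ S.card * (16 * K) + t * (36 * K * T.card) := by linarith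
    _ = K * (16 * S.card + 36 * T.card * t) := by ring

end Pool.Agent.X53.Bic
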