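import Mathlib
import Pool.Agent.X53.Bic.Zar

/-! Definitions for the biclique gap and the two bounds for the points/lines graph. -/

namespace Pool.Agent.X53.Bic

open Finset Classical

/-- `(P, Q)` is a biclique of the bipartite graph with edge relation `E`. -/
def IsBiclique {α β : Type} (E : α → β → Prop) (P : Finset α) (Q : Finset β) : Prop :=
  P.Nonempty ∧ Q.Nonempty ∧ ∀ x ∈ P, ∀ y ∈ Q, E x y

/-- No isolated vertices. -/
def NoIsolated {α β : Type} (E : α → β → Prop) : Prop := (∀ x, ∃ y, E x y) ∧ ∀ y, ∃ x, E x y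

/-- The edges of the subgraph induced by `S` and `T`. -/
noncomputable def edges {α β : Type} (E : α → β → Prop) (S : Finset α) (T : Finset β) :
    Finset (α × β) :=
  (S ×ˢ T).filter (fun e => E e.1 e.2)

/-- `κ` of the subgraph induced by `S` and `T`: the largest `H(|P|, |Q|)` over its bicliques. -/
noncomputable def kappa {α β : Type} (E : α → β → Prop) (S : Finset α) (T : Finset β) : ℝ :=
  sSup {r | ∃ P Q, P ⊆ S ∧ Q ⊆ T ∧ IsBiclique E P Q ∧ r = harm P.card Q.card}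

/-- `F ∩ (P × Q)`. -/
noncomputable def hit {α β : Type} (F : Finset (α × β)) (P : Finset α) (Q : Finset β) :
    Finset (α × β) :=
  F.filter (fun e => e.1 ∈ P ∧ e.2 ∈ Q)

theorem mem_hit {α β : Type} (F : Finset (α × β)) (P : Finset α) (Q : Finset β) (e : α × β) :
    e ∈ hit F P Q ↔ e ∈ F ∧ e.1 ∈ P ∧ e.2 ∈ Q := by
  unfold hit
  rw [mem_filter]

/-- `η(F)`: the least weight per covered edge of `F`, over the bicliques meeting `F`. -/
noncomputable def eta {α β : Type} (E : α → β → Prop) (F : Finset (α × β)) : ℝ :=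
  sInf {r | ∃ P Q, IsBiclique E P Q ∧ (hit F P Q).Nonempty ∧
    r = ((P.card : ℝ) + Q.card) / (hit F P Q).card}

/-- `η^*(G)`. -/
noncomputable def etaStar {α β : Type} (E : α → β → Prop) : ℝ :=
  sSup {r | ∃ F : Finset (α × β), F.Nonempty ∧ (∀ e ∈ F, E e.1 e.2) ∧ r = F.card * eta E F}

/-- `μ(G)`. -/
noncomputable def mu {α β : Type} (E : α → β → Prop) : ℝ :=
  sSup {r | ∃ (S : Finset α) (T : Finset β), (edges E S T).Nonempty ∧
    r = (edges E S T).card / kappa E S T}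

section general

variable {α β : Type} [Fintype α] [Fintype β] (E : α → β → Prop)

theorem kappa_bdd (S : Finset α) (T : Finset β) :
    BddAbove {r | ∃ P Q, P ⊆ S ∧ Q ⊆ T ∧ IsBiclique E P Q ∧ r = harm P.card Q.card} := by
  apply Set.Finite.bddAbove
  apply (Set.finite_range (fun z : Finset α × Finset β => harm z.1.card z.2.card)).subset
  rintro r ⟨P, Q, -, -, -, rfl⟩
  exact ⟨(P, Q), rfl⟩

theorem etaStar_bdd :
    BddAbove {r | ∃ F : Finset (α × β), F.Nonempty ∧ (∀ e ∈ F, E e.1 e.2) ∧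
      r = F.card * eta E F} := by
  apply Set.Finite.bddAbove
  apply (Set.finite_range (fun F : Finset (α × β) => (F.card : ℝ) * eta E F)).subset
  rintro r ⟨F, -, -, rfl⟩
  exact ⟨F, rfl⟩

theorem mu_bdd :
    BddAbove {r | ∃ (S : Finset α) (T : Finset β), (edges E S T).Nonempty ∧
      r = (edges E S T).card / kappa E S T} := by
  apply Set.Finite.bddAbove
  apply (Set.finite_range (fun z : Finset α × Finset β =>
    ((edges E z.1 z.2).card : ℝ) / kappa E z.1 z.2)).subset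
  rintro r ⟨S, T, -, rfl⟩
  exact ⟨(S, T), rfl⟩

theorem half_le_kappa (S : Finset α) (T : Finset β) (h : (edges E S T).Nonempty) :
    1 / 2 ≤ kappa E S T := by
  obtain ⟨e, he⟩ := h
  unfold edges at he
  rw [mem_filter, mem_product] at he
  apply le_csSup (kappa_bdd E S T)
  refine ⟨{e.1}, {e.2}, singleton_subset_iff.2 he.1.1, singleton_subset_iff.2 he.1.2,
    ⟨singleton_nonempty _, singleton_nonempty _, ?_⟩, ?_⟩
  · intro x hx y hy
    rw [mem_singleton] at hx hy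
    rw [hx, hy]
    exact he.2
  · unfold harm
    rw [card_singleton, card_singleton]
    norm_num

theorem mu_pos (h : (edges E univ univ).Nonempty) : 0 < mu E := by
  have h1 := half_le_kappa E univ univ h
  have h2 : (0 : ℝ) < (edges E univ univ).card := by exact_mod_cast card_pos.2 h
  have h3 : (edges E univ univ).card / kappa E univ univ ≤ mu E :=
    le_csSup (mu_bdd E) ⟨univ, univ, h, rfl⟩
  have h4 : 0 < (edges E univ univ).card / kappa E univ univ := div_pos h2 (by linarith)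
  linarith

end general

/-- The graph: points `(x, y)` above lines `y = a x + b`. -/
def pl (m : ℕ) (p : Fin m × Fin (2 * m ^ 2)) (l : Fin m × Fin (m ^ 2)) : Prop :=
  (l.1 : ℕ) * p.1 + l.2 ≤ p.2

theorem pl_noIsolated (m : ℕ) (hm : 1 ≤ m) : NoIsolated (pl m) := by
  have h2 : 0 < m ^ 2 := Nat.pos_of_ne_zero (by positivity)
  constructor
  · rintro ⟨x, y⟩
    refine ⟨(⟨0, hm⟩, ⟨0, h2⟩), ?_⟩
    show 0 * (x : ℕ) + 0 ≤ y
    omega
  · rintro ⟨a, b⟩
    refine ⟨(⟨0, hm⟩, ⟨b, by have := b.2; omega⟩), ?_⟩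
    show (a : ℕ) * 0 + b ≤ b
    omega

theorem pl_card (m : ℕ) :
    Fintype.card (Fin m × Fin (2 * m ^ 2)) + Fintype.card (Fin m × Fin (m ^ 2)) = 3 * m ^ 3 := by
  rw [Fintype.card_prod, Fintype.card_prod, Fintype.card_fin, Fintype.card_fin, Fintype.card_fin]
  ring

theorem pl_edges (m : ℕ) (hm : 1 ≤ m) : (edges (pl m) univ univ).Nonempty := by
  have h2 : 0 < m ^ 2 := Nat.pos_of_ne_zero (by positivity)
  obtain ⟨y, hy⟩ := (pl_noIsolated m hm).2 ((⟨0, hm⟩, ⟨0, h2⟩) : Fin m × Fin (m ^ 2))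
  exact ⟨(y, ((⟨0, hm⟩, ⟨0, h2⟩) : Fin m × Fin (m ^ 2))),
    mem_filter.2 ⟨mem_product.2 ⟨mem_univ _, mem_univ _⟩, hy⟩⟩

theorem mu_le (m : ℕ) (hm : 1 ≤ m) :
    mu (pl m) ≤ (m : ℝ) ^ 3 * (32 + 36 * Nat.log 2 (m ^ 3)) := by
  refine csSup_le (Exists.intro _ ⟨univ, univ, pl_edges m hm, rfl⟩) ?_
  rintro r ⟨S, T, hST, rfl⟩
  have hk := half_le_kappa (pl m) S T hST
  rw [div_le_iff₀ (by linarith)]
  have hmain := edge_bound
    (fun p : Fin m × Fin (2 * m ^ 2) => (p.1 : ℕ)) (fun p => (p.2 : ℕ))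
    (fun l : Fin m × Fin (m ^ 2) => (l.1 : ℕ)) (fun l => (l.2 : ℕ))
    (fun p p' h1 h2 => Prod.ext (Fin.ext h1) (Fin.ext h2)) S T m
    (fun p _ => p.1.2)
    (kappa (pl m) S T) hk (by
      intro P hP Q hQ hPn hQn hPQ
      exact le_csSup (kappa_bdd (pl m) S T) ⟨P, Q, hP, hQ, ⟨hPn, hQn, hPQ⟩, rfl⟩)
  have h2 : (edges (pl m) S T).card = (edg
    (fun p : Fin m × Fin (2 * m ^ 2) => (p.1 : ℕ)) (fun p => (p.2 : ℕ))
    (fun l : Fin m × Fin (m ^ 2) => (l.1 : ℕ)) (fun l => (l.2 : ℕ)) S T).card := by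
    congr 1
    ext e
    unfold edges edg
    rw [mem_filter, mem_filter]
    exact Iff.rfl
  rw [h2]
  refine hmain.trans ?_
  have hS : (S.card : ℝ) ≤ 2 * (m : ℝ) ^ 3 := by
    have : S.card ≤ 2 * m ^ 3 := by
      refine (card_le_univ S).trans (le_of_eq ?_)
      rw [Fintype.card_prod, Fintype.card_fin, Fintype.card_fin]
      ring
    exact_mod_cast this
  have hT' : T.card ≤ m ^ 3 := by
    refine (card_le_univ T).trans (le_of_eq ?_)
    rw [Fintype.card_prod, Fintype.card_fin, Fintype.card_fin]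
    ring
  have hT : (T.card : ℝ) ≤ (m : ℝ) ^ 3 := by exact_mod_cast hT'
  have hlog : (Nat.log 2 T.card : ℝ) ≤ Nat.log 2 (m ^ 3) := by
    exact_mod_cast Nat.log_mono_right hT'
  have h3 : (T.card : ℝ) * Nat.log 2 T.card ≤ (m : ℝ) ^ 3 * Nat.log 2 (m ^ 3) :=
    mul_le_mul hT hlog (Nat.cast_nonneg _) (by positivity)
  have h4 : kappa (pl m) S T * (16 * S.card + 36 * T.card * Nat.log 2 T.card) ≤
      kappa (pl m) S T * ((m : ℝ) ^ 3 * (32 + 36 * Nat.log 2 (m ^ 3))) := by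
    apply mul_le_mul_of_nonneg_left _ (by linarith)
    nlinarith
  linarith

theorem etaStar_ge (m : ℕ) (hm : 1 ≤ m) : (m : ℝ) ^ 4 ≤ etaStar (pl m) := by
  set F : Finset ((Fin m × Fin (2 * m ^ 2)) × (Fin m × Fin (m ^ 2))) :=
    (univ ×ˢ univ).filter (fun e => (e.2.1 : ℕ) * e.1.1 + e.2.2 = e.1.2) with hF
  have hFcard : m ^ 4 ≤ F.card := by
    have h1 : (univ : Finset (Fin m × (Fin m × Fin (m ^ 2)))).card = m ^ 4 := by
      rw [card_univ, Fintype.card_prod, Fintype.card_prod, Fintype.card_fin, Fintype.card_fin]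
      ring
    rw [← h1]
    have hlt : ∀ z : Fin m × (Fin m × Fin (m ^ 2)),
        (z.2.1 : ℕ) * z.1 + z.2.2 < 2 * m ^ 2 := by
      intro z
      have h2 : (z.2.1 : ℕ) * z.1 ≤ m * m := Nat.mul_le_mul z.2.1.2.le z.1.2.le
      have h3 := z.2.2.2
      have h4 : m * m = m ^ 2 := by ring
      omega
    apply Finset.card_le_card_of_injOn
      (fun z => ((z.1, ⟨(z.2.1 : ℕ) * z.1 + z.2.2, hlt z⟩), z.2))
    · intro z _
      rw [hF, mem_coe, mem_filter, mem_product]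
      exact ⟨⟨mem_univ _, mem_univ _⟩, rfl⟩
    · intro z _ z' _ hzz
      exact Prod.ext (congrArg (fun q => q.1.1) hzz) (congrArg (fun q => q.2) hzz)
  have hFne : F.Nonempty := by
    rw [← card_pos]
    exact lt_of_lt_of_le (Nat.pos_of_ne_zero (by positivity)) hFcard
  have heta : 1 ≤ eta (pl m) F := by
    apply le_csInf
    · obtain ⟨e, he⟩ := hFne
      refine ⟨_, {e.1}, {e.2}, ⟨singleton_nonempty _, singleton_nonempty _, ?_⟩, ⟨e, ?_⟩, rfl⟩
      · intro x hx y hy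
        rw [mem_singleton] at hx hy
        rw [hx, hy]
        rw [hF, mem_filter] at he
        exact he.2.le
      · exact (mem_hit _ _ _ _).2 ⟨he, mem_singleton_self _, mem_singleton_self _⟩
    · rintro r ⟨P, Q, ⟨hP, hQ, hPQ⟩, hne, rfl⟩
      have h1 := inc_le
        (fun p : Fin m × Fin (2 * m ^ 2) => (p.1 : ℕ)) (fun p => (p.2 : ℕ))
        (fun l : Fin m × Fin (m ^ 2) => (l.1 : ℕ)) (fun l => (l.2 : ℕ))
        (fun p p' h1 h2 => Prod.ext (Fin.ext h1) (Fin.ext h2))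
        (fun p p' h1 h2 => Prod.ext (Fin.ext h1) (Fin.ext h2)) P Q hPQ
      have h2 : (hit F P Q).card ≤ P.card + Q.card := by
        refine le_trans (card_le_card ?_) h1
        intro e he
        rw [mem_hit] at he
        have h4 := (mem_filter.1 he.1).2
        exact mem_filter.2 ⟨mem_product.2 he.2, h4⟩
      have h3 : (0 : ℝ) < (hit F P Q).card := by exact_mod_cast card_pos.2 hne
      rw [le_div_iff₀ h3, one_mul]
      exact_mod_cast h2
  have h5 : (F.card : ℝ) * eta (pl m) F ≤ etaStar (pl m) := by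
    apply le_csSup (etaStar_bdd (pl m))
    refine ⟨F, hFne, ?_, rfl⟩
    intro e he
    rw [hF, mem_filter] at he
    exact he.2.le
  have h6 : (m : ℝ) ^ 4 ≤ F.card := by exact_mod_cast hFcard
  have h7 : (0 : ℝ) ≤ F.card := Nat.cast_nonneg _
  nlinarith

theorem ratio (m : ℕ) (hm : 1 ≤ m) :
    (m : ℝ) * mu (pl m) ≤ (32 + 36 * Nat.log 2 (m ^ 3)) * etaStar (pl m) := by
  have h1 := mu_le m hm
  have h2 := etaStar_ge m hm
  have h3 : (m : ℝ) * mu (pl m) ≤ m * ((m : ℝ) ^ 3 * (32 + 36 * Nat.log 2 (m ^ 3))) :=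
    mul_le_mul_of_nonneg_left h1 (by positivity)
  have h4 : (32 + 36 * (Nat.log 2 (m ^ 3) : ℝ)) * (m : ℝ) ^ 4 ≤
      (32 + 36 * Nat.log 2 (m ^ 3)) * etaStar (pl m) :=
    mul_le_mul_of_nonneg_left h2 (by positivity)
  have h5 : (m : ℝ) * ((m : ℝ) ^ 3 * (32 + 36 * Nat.log 2 (m ^ 3))) =
    (32 + 36 * (Nat.log 2 (m ^ 3) : ℝ)) * (m : ℝ) ^ 4 := by ring
  linarith

/-- the logarithmic factor -/
theorem log_factor (m n : ℕ) (hm : 1 ≤ m) (hn : 3 * m ^ 3 ≤ n) :
    (32 + 36 * (Nat.log 2 (m ^ 3) : ℝ)) ≤ 90 * Real.log n := by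
  have hm3 : 1 ≤ m ^ 3 := Nat.one_le_pow _ _ hm
  have hn3 : (3 : ℝ) ≤ n := by
    have : 3 ≤ n := by omega
    exact_mod_cast this
  have h1 : (1 : ℝ) ≤ Real.log n := by
    rw [Real.le_log_iff_exp_le (by linarith)]
    exact (Real.exp_one_lt_d9.le.trans (by norm_num)).trans hn3
  have h2 : (2 : ℝ) ^ (Nat.log 2 (m ^ 3)) ≤ n := by
    have h3 : 2 ^ Nat.log 2 (m ^ 3) ≤ m ^ 3 := Nat.pow_log_le_self 2 (by omega)
    have h4 : 2 ^ Nat.log 2 (m ^ 3) ≤ n := by omega
    exact_mod_cast h4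
  have h5 : (Nat.log 2 (m ^ 3) : ℝ) * Real.log 2 ≤ Real.log n := by
    rw [← Real.log_pow]
    exact Real.log_le_log (by positivity) h2
  have h6 : (0.6931471803 : ℝ) < Real.log 2 := Real.log_two_gt_d9
  have h7 : (0 : ℝ) ≤ (Nat.log 2 (m ^ 3) : ℝ) := Nat.cast_nonneg _
  have h8 : (Nat.log 2 (m ^ 3) : ℝ) * 0.69 ≤ Real.log n := by nlinarith
  linarith

end Pool.Agent.X53.Bic
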