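import Mathlib

/-! A random half of a set of pairs: no rectangle inside has many chosen pairs. -/

namespace Pool.Agent.X53.Bic

open Finset Classical

variable {α β : Type} [Fintype α] [Fintype β]

theorem sum_weight (γ : Type) [Fintype γ] (x : ℝ) :
    ∑ P : Finset γ, x ^ P.card = (1 + x) ^ Fintype.card γ := by
  have h := Finset.sum_pow_mul_eq_add_pow x (1 : ℝ) (univ : Finset γ)
  rw [Finset.powerset_univ] at h
  simp only [one_pow, mul_one] at h
  rw [h, add_comm, card_univ]

/-- the number of `F ⊆ T` containing a fixed `N ⊆ T` is `2^(|T| - |N|)` -/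
theorem card_super (T N : Finset (α × β)) (hN : N ⊆ T) :
    (((T.powerset).filter (fun F => N ⊆ F)).card : ℝ) = 2 ^ T.card * (1 / 2) ^ N.card := by
  have h1 : (T.powerset).filter (fun F => N ⊆ F) = Finset.Icc N T := by
    ext F
    rw [mem_filter, mem_powerset, Finset.mem_Icc]
    exact and_comm
  rw [h1, Finset.card_Icc_finset hN]
  have h2 : N.card ≤ T.card := card_le_card hN
  obtain ⟨k, hk⟩ := Nat.exists_eq_add_of_le h2
  rw [hk, Nat.add_sub_cancel_left, pow_add]
  push_cast
  rw [mul_assoc, mul_comm ((2 : ℝ) ^ k), ← mul_assoc, ← mul_pow]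
  norm_num

/-- Choose `F ⊆ T` with `|T| ≤ 2 |F|` such that every rectangle whose `T`-pairs all lie in `F` has
at most `K (|P| + |Q|)` of them. -/
theorem exists_half (T : Finset (α × β)) (K : ℕ)
    (hK : 4 * (Fintype.card α + Fintype.card β) ≤ 2 ^ K) :
    ∃ F ⊆ T, T.card ≤ 2 * F.card ∧ ∀ (P : Finset α) (Q : Finset β),
      (T.filter (fun e => e.1 ∈ P ∧ e.2 ∈ Q)) ⊆ F →
      (T.filter (fun e => e.1 ∈ P ∧ e.2 ∈ Q)).card ≤ K * (P.card + Q.card) := by
  set n := Fintype.card α + Fintype.card β with hn
  set N : Finset α × Finset β → Finset (α × β) :=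
    fun z => T.filter (fun e => e.1 ∈ z.1 ∧ e.2 ∈ z.2) with hN
  set big : Finset (Finset α × Finset β) :=
    univ.filter (fun z => K * (z.1.card + z.2.card) < (N z).card) with hbig
  set bad := big.biUnion (fun z => (T.powerset).filter (fun F => N z ⊆ F)) with hbad
  have hx : (0 : ℝ) < (1 / 2) ^ K := by positivity
  set x : ℝ := (1 / 2) ^ K with hxdef
  have hxn : 4 * (n : ℝ) * x ≤ 1 := by
    have h1 : 4 * (n : ℝ) ≤ 2 ^ K := by exact_mod_cast hK
    have h2 : 4 * (n : ℝ) * x ≤ 2 ^ K * x := mul_le_mul_of_nonneg_right h1 hx.le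
    have h3 : (2 : ℝ) ^ K * x = 1 := by
      rw [hxdef, ← mul_pow]
      norm_num
    linarith
  have hbadcard : (bad.card : ℝ) < 2 ^ T.card / 2 := by
    have h1 : (bad.card : ℝ) ≤ ∑ z ∈ big, (((T.powerset).filter (fun F => N z ⊆ F)).card : ℝ) := by
      exact_mod_cast card_biUnion_le
    have h2 : ∑ z ∈ big, (((T.powerset).filter (fun F => N z ⊆ F)).card : ℝ) ≤
        ∑ z ∈ big, 2 ^ T.card * (x ^ z.1.card * x ^ z.2.card) := by
      apply Finset.sum_le_sum
      intro z hz
      rw [hbig, mem_filter] at hz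
      rw [card_super T (N z) (filter_subset _ _)]
      apply mul_le_mul_of_nonneg_left _ (by positivity)
      rw [hxdef, ← pow_mul, ← pow_mul, ← pow_add, ← mul_add]
      exact pow_le_pow_of_le_one (by norm_num) (by norm_num) hz.2.le
    have h3 : ∑ z ∈ big, 2 ^ T.card * (x ^ z.1.card * x ^ z.2.card) ≤
        ∑ z ∈ (univ.erase ((∅, ∅) : Finset α × Finset β)),
          2 ^ T.card * (x ^ z.1.card * x ^ z.2.card) := by
      apply Finset.sum_le_sum_of_subset_of_nonneg
      · intro z hz
        rw [mem_erase]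
        refine ⟨?_, mem_univ _⟩
        rintro rfl
        rw [hbig, mem_filter] at hz
        have h4 : N (∅, ∅) = ∅ := by
          rw [hN]
          simp only
          apply Finset.filter_eq_empty_iff.2
          intro e _ h5
          exact absurd h5.1 (notMem_empty _)
        rw [h4] at hz
        simp at hz
      · intro z _ _
        positivity
    have h4 : ∑ z ∈ (univ.erase ((∅, ∅) : Finset α × Finset β)),
          2 ^ T.card * (x ^ z.1.card * x ^ z.2.card) =
        2 ^ T.card * ((1 + x) ^ n - 1) := by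
      have h5 := Finset.add_sum_erase univ
        (fun z : Finset α × Finset β => (2 : ℝ) ^ T.card * (x ^ z.1.card * x ^ z.2.card))
        (mem_univ (∅, ∅))
      have h6 : ∑ z : Finset α × Finset β, (2 : ℝ) ^ T.card * (x ^ z.1.card * x ^ z.2.card) =
          2 ^ T.card * (1 + x) ^ n := by
        rw [← Finset.mul_sum, Fintype.sum_prod_type]
        simp only
        rw [← Finset.sum_mul_sum, sum_weight, sum_weight, hn, pow_add]
      rw [h6] at h5
      simp only [card_empty, pow_zero, mul_one] at h5
      linarith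
    have h7 : (1 + x) ^ n < 1 + 1 / 2 := by
      have h8 : (1 + x) ^ n * (1 - n * x) ≤ 1 := by
        have h9 : 1 + (n : ℝ) * (-x) ≤ (1 + (-x)) ^ n :=
          one_add_mul_le_pow (by
            have : x ≤ 1 := pow_le_one₀ (by norm_num) (by norm_num)
            linarith) n
        have h10 : (1 + x) ^ n * (1 + (n : ℝ) * (-x)) ≤ (1 + x) ^ n * (1 + (-x)) ^ n :=
          mul_le_mul_of_nonneg_left h9 (by positivity)
        have h11 : (1 + x) ^ n * (1 + (-x)) ^ n ≤ 1 := by
          rw [← mul_pow]
          apply pow_le_one₀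
          · have : x ≤ 1 := pow_le_one₀ (by norm_num) (by norm_num)
            nlinarith
          · nlinarith
        have h12 : 1 + (n : ℝ) * (-x) = 1 - n * x := by ring
        rw [h12] at h10
        linarith
      have h13 : 0 < (1 + x) ^ n := by positivity
      nlinarith
    have h8 : (0 : ℝ) < 2 ^ T.card := by positivity
    have h9 : (2 : ℝ) ^ T.card * ((1 + x) ^ n - 1) < 2 ^ T.card * (1 / 2) := by
      apply mul_lt_mul_of_pos_left _ h8
      linarith
    linarith
  -- the family of bad sets and their complements does not exhaust the powerset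
  set bad' := bad.image (fun F => T \ F) with hbad'
  have hex : ∃ F ∈ T.powerset, F ∉ bad ∧ F ∉ bad' := by
    by_contra hcon
    push Not at hcon
    have h1 : T.powerset ⊆ bad ∪ bad' := by
      intro F hF
      rw [mem_union]
      by_cases h : F ∈ bad
      · exact Or.inl h
      · exact Or.inr (hcon F hF h)
    have h2 := card_le_card h1
    have h3 := card_union_le bad bad'
    have h4 : bad'.card ≤ bad.card := card_image_le
    rw [card_powerset] at h2
    have h5 : 2 ^ T.card ≤ 2 * bad.card := by omega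
    have h6 : (2 : ℝ) ^ T.card ≤ 2 * bad.card := by exact_mod_cast h5
    linarith
  obtain ⟨F, hF, hF1, hF2⟩ := hex
  rw [mem_powerset] at hF
  have good : ∀ F' ⊆ T, F' ∉ bad → ∀ (P : Finset α) (Q : Finset β),
      (T.filter (fun e => e.1 ∈ P ∧ e.2 ∈ Q)) ⊆ F' →
      (T.filter (fun e => e.1 ∈ P ∧ e.2 ∈ Q)).card ≤ K * (P.card + Q.card) := by
    intro F' hF' hb P Q hPQ
    by_contra hcon
    push Not at hcon
    apply hb
    rw [hbad, mem_biUnion]
    refine ⟨(P, Q), ?_, ?_⟩
    · rw [hbig, mem_filter]
      exact ⟨mem_univ _, hcon⟩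
    · rw [mem_filter, mem_powerset]
      exact ⟨hF', hPQ⟩
  by_cases hc : T.card ≤ 2 * F.card
  · exact ⟨F, hF, hc, good F hF hF1⟩
  · refine ⟨T \ F, sdiff_subset, ?_, good _ sdiff_subset ?_⟩
    · rw [card_sdiff_of_subset hF]
      have := card_le_card hF
      omega
    · intro h
      apply hF2
      rw [hbad', mem_image]
      refine ⟨T \ F, h, ?_⟩
      rw [sdiff_sdiff_right_self]
      exact inter_eq_right.2 hF

end Pool.Agent.X53.Bic
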