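import Mathlib
import Pool.Agent.X53.Bic.Dens
import Pool.Agent.X53.Bic.Rnd
import Pool.Agent.X53.Bic.Graph

/-! The inner product graph. -/

namespace Pool.Agent.X53.Bic

open Finset Classical

/-- inner product of `x + 1` and `b + 1` -/
def ip {d p : ℕ} (x b : Fin d → Fin p) : ℕ := ∑ i, ((x i : ℕ) + 1) * ((b i : ℕ) + 1)

/-- the left side -/
abbrev LL (d p : ℕ) : Type := (Fin d → Fin p) × Fin (d * p ^ 2 + 1)

/-- tight pairs -/
def tight {d p : ℕ} (a : LL d p) (b : Fin d → Fin p) : Prop := ip a.1 b = a.2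

/-- the graph: all non-tight pairs and the pairs in `F` -/
def ipE {d p : ℕ} (F : Finset (LL d p × (Fin d → Fin p))) (a : LL d p) (b : Fin d → Fin p) :
    Prop :=
  ¬ tight a b ∨ (a, b) ∈ F

theorem homog (d : ℕ) : ∃ c : ℝ, 0 < c ∧ ∀ (p : ℕ) (S : Finset (LL d p))
    (T : Finset (Fin d → Fin p)), S.Nonempty → T.Nonempty →
    ∃ P ⊆ S, ∃ Q ⊆ T, c * S.card ≤ P.card ∧ c * T.card ≤ Q.card ∧
      ((∀ a ∈ P, ∀ b ∈ Q, ¬ tight a b) ∨ ∀ a ∈ P, ∀ b ∈ Q, tight a b) := by
  obtain ⟨c1, hc1, h1⟩ := dens_lt d (1 / 3) (by norm_num)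
  obtain ⟨c2, hc2, h2⟩ := dens_eq (d + 1) (1 / 3) (by norm_num)
  refine ⟨min c1 c2, lt_min hc1 hc2, ?_⟩
  intro p S T hS hT
  have hSpos : (0 : ℝ) < S.card := by exact_mod_cast card_pos.2 hS
  have hTpos : (0 : ℝ) < T.card := by exact_mod_cast card_pos.2 hT
  set X : LL d p → Fin (d + 1) → ℝ :=
    fun a => Fin.cons (-((a.2 : ℕ) : ℝ)) (fun i => ((a.1 i : ℕ) : ℝ) + 1) with hX
  set Y : (Fin d → Fin p) → Fin (d + 1) → ℝ :=
    fun b => Fin.cons 1 (fun i => ((b i : ℕ) : ℝ) + 1) with hY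
  have hXY : ∀ a b, ∑ i, X a i * Y b i = (ip a.1 b : ℝ) - ((a.2 : ℕ) : ℝ) := by
    intro a b
    rw [Fin.sum_univ_succ, hX, hY]
    simp only [Fin.cons_zero, Fin.cons_succ, mul_one]
    unfold ip
    push_cast
    ring
  have hXY' : ∀ a b, ∑ i, X a i * (-Y b i) = ((a.2 : ℕ) : ℝ) - (ip a.1 b : ℝ) := by
    intro a b
    have h3 : ∑ i, X a i * (-Y b i) = - ∑ i, X a i * Y b i := by
      rw [← Finset.sum_neg_distrib]
      apply Finset.sum_congr rfl
      intro i _
      ring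
    rw [h3, hXY]
    ring
  have hle1 : min c1 c2 * S.card ≤ c1 * S.card :=
    mul_le_mul_of_nonneg_right (min_le_left _ _) hSpos.le
  have hle2 : min c1 c2 * T.card ≤ c1 * T.card :=
    mul_le_mul_of_nonneg_right (min_le_left _ _) hTpos.le
  have hle3 : min c1 c2 * S.card ≤ c2 * S.card :=
    mul_le_mul_of_nonneg_right (min_le_right _ _) hSpos.le
  have hle4 : min c1 c2 * T.card ≤ c2 * T.card :=
    mul_le_mul_of_nonneg_right (min_le_right _ _) hTpos.le
  by_cases hA : 1 / 3 * ((S.card : ℝ) * T.card) ≤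
      (((S ×ˢ T).filter (fun e => 0 < ∑ i, X e.1 i * Y e.2 i)).card : ℝ)
  · obtain ⟨P, hP, Q, hQ, hPc, hQc, hPQ⟩ := h1 _ _ S T X Y hS hT hA
    refine ⟨P, hP, Q, hQ, hle1.trans hPc, hle2.trans hQc, Or.inl ?_⟩
    intro a ha b hb ht
    have h3 := hPQ a ha b hb
    rw [hXY] at h3
    unfold tight at ht
    rw [ht] at h3
    linarith
  by_cases hB : 1 / 3 * ((S.card : ℝ) * T.card) ≤
      (((S ×ˢ T).filter (fun e => 0 < ∑ i, X e.1 i * (-Y e.2 i))).card : ℝ)
  · obtain ⟨P, hP, Q, hQ, hPc, hQc, hPQ⟩ := h1 _ _ S T X (fun b i => -Y b i) hS hT hB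
    refine ⟨P, hP, Q, hQ, hle1.trans hPc, hle2.trans hQc, Or.inl ?_⟩
    intro a ha b hb ht
    have h3 := hPQ a ha b hb
    rw [hXY'] at h3
    unfold tight at ht
    rw [ht] at h3
    linarith
  have hC : 1 / 3 * ((S.card : ℝ) * T.card) ≤
      (((S ×ˢ T).filter (fun e => ∑ i, X e.1 i * Y e.2 i = 0)).card : ℝ) := by
    by_contra hC
    push Not at hA hB hC
    have h3 : S ×ˢ T ⊆ (((S ×ˢ T).filter (fun e => 0 < ∑ i, X e.1 i * Y e.2 i)) ∪
        ((S ×ˢ T).filter (fun e => 0 < ∑ i, X e.1 i * (-Y e.2 i)))) ∪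
        ((S ×ˢ T).filter (fun e => ∑ i, X e.1 i * Y e.2 i = 0)) := by
      intro e he
      rw [mem_union, mem_union, mem_filter, mem_filter, mem_filter, hXY, hXY']
      rcases lt_trichotomy ((ip e.1.1 e.2 : ℝ)) (((e.1.2 : ℕ) : ℝ)) with h | h | h
      · left; right
        exact ⟨he, by linarith⟩
      · right
        exact ⟨he, by linarith⟩
      · left; left
        exact ⟨he, by linarith⟩
    have h4 := card_le_card h3
    have h5 := card_union_le (((S ×ˢ T).filter (fun e => 0 < ∑ i, X e.1 i * Y e.2 i)) ∪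
        ((S ×ˢ T).filter (fun e => 0 < ∑ i, X e.1 i * (-Y e.2 i))))
        ((S ×ˢ T).filter (fun e => ∑ i, X e.1 i * Y e.2 i = 0))
    have h6 := card_union_le ((S ×ˢ T).filter (fun e => 0 < ∑ i, X e.1 i * Y e.2 i))
        ((S ×ˢ T).filter (fun e => 0 < ∑ i, X e.1 i * (-Y e.2 i)))
    rw [card_product] at h4
    have h7 : (S.card : ℝ) * T.card ≤
        ((((S ×ˢ T).filter (fun e => 0 < ∑ i, X e.1 i * Y e.2 i)).card : ℝ) +
        (((S ×ˢ T).filter (fun e => 0 < ∑ i, X e.1 i * (-Y e.2 i))).card : ℝ)) +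
        (((S ×ˢ T).filter (fun e => ∑ i, X e.1 i * Y e.2 i = 0)).card : ℝ) := by
      exact_mod_cast h4.trans (h5.trans (Nat.add_le_add_right h6 _))
    linarith
  obtain ⟨P, hP, Q, hQ, hPc, hQc, hPQ⟩ := h2 _ _ S T X Y hS hT hC
  refine ⟨P, hP, Q, hQ, hle3.trans hPc, hle4.trans hQc, Or.inr ?_⟩
  intro a ha b hb
  have h3 := hPQ a ha b hb
  rw [hXY] at h3
  unfold tight
  have h4 : (ip a.1 b : ℝ) = ((a.2 : ℕ) : ℝ) := by linarith
  exact_mod_cast h4

/-- orthogonal sets over a prime field -/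
theorem orth_card (p D : ℕ) [Fact p.Prime] (P Q : Finset (Fin D → ZMod p))
    (h : ∀ u ∈ P, ∀ v ∈ Q, u ⬝ᵥ v = 0) : P.card * Q.card ≤ p ^ D := by
  set W : Subspace (ZMod p) (Fin D → ZMod p) := Submodule.span (ZMod p) (P : Set (Fin D → ZMod p))
    with hW
  have h1 : P.card ≤ p ^ Module.finrank (ZMod p) W := by
    have h2 : Nat.card W = p ^ Module.finrank (ZMod p) W := by
      rw [Module.natCard_eq_pow_finrank (K := ZMod p), Nat.card_zmod]
    rw [← h2, Nat.card_eq_fintype_card, ← Fintype.card_coe P]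
    exact Fintype.card_le_of_injective (fun u => (⟨u.1, Submodule.subset_span u.2⟩ : W))
      (fun u v huv => Subtype.ext (congrArg (fun w : W => (w : Fin D → ZMod p)) huv))
  have h3 : Q.card ≤ p ^ Module.finrank (ZMod p) W.dualAnnihilator := by
    have h2 : Nat.card W.dualAnnihilator = p ^ Module.finrank (ZMod p) W.dualAnnihilator := by
      rw [Module.natCard_eq_pow_finrank (K := ZMod p), Nat.card_zmod]
    have hfin : Finite W.dualAnnihilator := by
      have : Finite (Module.Dual (ZMod p) (Fin D → ZMod p)) :=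
        Finite.of_equiv _ (dotProductEquiv (ZMod p) (Fin D)).toEquiv
      infer_instance
    rw [← h2, ← Fintype.card_coe Q, ← Nat.card_eq_fintype_card]
    refine Nat.card_le_card_of_injective (fun v => (⟨dotProductEquiv (ZMod p) (Fin D) v.1, ?_⟩ :
      W.dualAnnihilator)) ?_
    · rw [Submodule.mem_dualAnnihilator]
      intro w hw
      rw [hW] at hw
      refine Submodule.span_induction (p := fun w _ => dotProductEquiv (ZMod p) (Fin D) v.1 w = 0)
        ?_ ?_ ?_ ?_ hw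
      · intro u hu
        show v.1 ⬝ᵥ u = 0
        rw [dotProduct_comm]
        exact h u hu v.1 v.2
      · exact map_zero _
      · intro x y _ _ hx hy
        rw [map_add, hx, hy, add_zero]
      · intro a x _ hx
        rw [map_smul, hx, smul_zero]
    · intro v v' hv
      have h4 := congrArg Subtype.val hv
      exact Subtype.ext ((dotProductEquiv (ZMod p) (Fin D)).injective h4)
  have h5 := Subspace.finrank_add_finrank_dualAnnihilator_eq W
  rw [Module.finrank_fin_fun] at h5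
  calc P.card * Q.card ≤ p ^ Module.finrank (ZMod p) W * p ^ Module.finrank (ZMod p) W.dualAnnihilator
      := Nat.mul_le_mul h1 h3
    _ = p ^ D := by rw [← pow_add, h5]

end Pool.Agent.X53.Bic
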