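import Mathlib
import Pool.Agent.X53.Bic.Inner

/-! The bounds for the inner product graph. -/

namespace Pool.Agent.X53.Bic

open Finset Classical

theorem cast_inj {p k l : ℕ} (hk : k < p) (hl : l < p) (h : (k : ZMod p) = (l : ZMod p)) :
    k = l := by
  rw [ZMod.natCast_eq_natCast_iff'] at h
  rwa [Nat.mod_eq_of_lt hk, Nat.mod_eq_of_lt hl] at h

theorem tight_card (d p : ℕ) [Fact p.Prime] (P : Finset (LL d p)) (Q : Finset (Fin d → Fin p))
    (hQ : Q.Nonempty) (h : ∀ a ∈ P, ∀ b ∈ Q, tight a b) : P.card * Q.card ≤ p ^ (d + 1) := by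
  set X : LL d p → Fin (d + 1) → ZMod p :=
    fun a => Fin.cons (-((a.2 : ℕ) : ZMod p)) (fun i => ((a.1 i : ℕ) : ZMod p) + 1) with hX
  set Y : (Fin d → Fin p) → Fin (d + 1) → ZMod p :=
    fun b => Fin.cons 1 (fun i => ((b i : ℕ) : ZMod p) + 1) with hY
  have hX1 : (P.image X).card = P.card := by
    apply card_image_of_injOn
    intro a ha a' ha' haa
    obtain ⟨b, hb⟩ := hQ
    have h1 : a.1 = a'.1 := by
      funext i
      have h2 := congrFun haa i.succ
      rw [hX] at h2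
      simp only [Fin.cons_succ] at h2
      exact Fin.ext (cast_inj (a.1 i).2 (a'.1 i).2 (add_right_cancel h2))
    have h3 : ip a.1 b = a.2 := h a ha b hb
    have h4 : ip a'.1 b = a'.2 := h a' ha' b hb
    rw [h1] at h3
    exact Prod.ext h1 (Fin.ext (h3.symm.trans h4))
  have hY1 : (Q.image Y).card = Q.card := by
    apply card_image_of_injOn
    intro b hb b' hb' hbb
    funext i
    have h2 := congrFun hbb i.succ
    rw [hY] at h2
    simp only [Fin.cons_succ] at h2
    exact Fin.ext (cast_inj (b i).2 (b' i).2 (add_right_cancel h2))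
  rw [← hX1, ← hY1]
  apply orth_card
  intro u hu v hv
  rw [mem_image] at hu hv
  obtain ⟨a, ha, rfl⟩ := hu
  obtain ⟨b, hb, rfl⟩ := hv
  have h3 : ip a.1 b = a.2 := h a ha b hb
  rw [dotProduct, Fin.sum_univ_succ, hX, hY]
  simp only [Fin.cons_zero, Fin.cons_succ, mul_one]
  have h4 : ∑ i, (((a.1 i : ℕ) : ZMod p) + 1) * (((b i : ℕ) : ZMod p) + 1) =
      ((ip a.1 b : ℕ) : ZMod p) := by
    unfold ip
    push_cast
    rfl
  rw [h4, h3]
  ring

theorem LL_card (d p : ℕ) : Fintype.card (LL d p) = p ^ d * (d * p ^ 2 + 1) := by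
  rw [Fintype.card_prod, Fintype.card_fun, Fintype.card_fin, Fintype.card_fin, Fintype.card_fin]

theorem ip_pos {d p : ℕ} (hd : 1 ≤ d) (x b : Fin d → Fin p) : 0 < ip x b := by
  unfold ip
  apply Finset.sum_pos
  · intro i _
    positivity
  · exact ⟨⟨0, hd⟩, mem_univ _⟩

theorem ip_le {d p : ℕ} (x b : Fin d → Fin p) : ip x b ≤ d * p ^ 2 := by
  unfold ip
  calc ∑ i : Fin d, ((x i : ℕ) + 1) * ((b i : ℕ) + 1) ≤ ∑ i : Fin d, p ^ 2 := by
        apply Finset.sum_le_sum
        intro i _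
        rw [pow_two]
        exact Nat.mul_le_mul (x i).2 (b i).2
    _ = d * p ^ 2 := by rw [Finset.sum_const, card_univ, Fintype.card_fin, smul_eq_mul]

theorem ip_noIsolated (d p : ℕ) (hd : 1 ≤ d) (hp : 2 ≤ p)
    (F : Finset (LL d p × (Fin d → Fin p))) : NoIsolated (ipE F) := by
  constructor
  · intro a
    by_contra hcon
    push Not at hcon
    have h0 := hcon (fun _ => ⟨0, by omega⟩)
    have h1 := hcon (fun _ => ⟨1, by omega⟩)
    unfold ipE at h0 h1
    push Not at h0 h1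
    have h2 : ip a.1 (fun _ => (⟨0, by omega⟩ : Fin p)) = a.2 := h0.1
    have h3 : ip a.1 (fun _ => (⟨1, by omega⟩ : Fin p)) = a.2 := h1.1
    have h4 : ip a.1 (fun _ => (⟨1, by omega⟩ : Fin p)) =
        2 * ip a.1 (fun _ => (⟨0, by omega⟩ : Fin p)) := by
      unfold ip
      rw [Finset.mul_sum]
      apply Finset.sum_congr rfl
      intro i _
      ring
    have h5 := ip_pos hd a.1 (fun _ => (⟨0, by omega⟩ : Fin p))
    omega
  · intro b
    refine ⟨(b, ⟨0, by omega⟩), Or.inl ?_⟩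
    intro h
    have h1 : ip b b = 0 := h
    have h2 := ip_pos hd b b
    omega

theorem ip_edges (d p : ℕ) (hd : 1 ≤ d) (hp : 2 ≤ p)
    (F : Finset (LL d p × (Fin d → Fin p))) : (edges (ipE F) univ univ).Nonempty := by
  obtain ⟨a, ha⟩ := (ip_noIsolated d p hd hp F).2 (fun _ => ⟨0, by omega⟩)
  exact ⟨(a, _), mem_filter.2 ⟨mem_product.2 ⟨mem_univ _, mem_univ _⟩, ha⟩⟩

theorem mu_ip_le (d : ℕ) (hd : 1 ≤ d) : ∃ C : ℝ, 0 < C ∧ ∀ (p : ℕ) [Fact p.Prime]
    (F : Finset (LL d p × (Fin d → Fin p))),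
    mu (ipE F) ≤ C * ((Fintype.card (LL d p) : ℝ) + Fintype.card (Fin d → Fin p)) := by
  obtain ⟨c, hc, hhom⟩ := homog d
  refine ⟨2 / c ^ 2, by positivity, ?_⟩
  intro p hpf F
  have hp : 2 ≤ p := hpf.out.two_le
  set n : ℝ := (Fintype.card (LL d p) : ℝ) + Fintype.card (Fin d → Fin p) with hn
  refine csSup_le (Exists.intro _ ⟨univ, univ, ip_edges d p hd hp F, rfl⟩) ?_
  rintro r ⟨S, T, hST, rfl⟩
  have hk := half_le_kappa (ipE F) S T hST
  rw [div_le_iff₀ (by linarith)]
  have he : ((edges (ipE F) S T).card : ℝ) ≤ S.card * T.card := by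
    have h1 : (edges (ipE F) S T).card ≤ S.card * T.card := by
      rw [← card_product]
      exact card_le_card (filter_subset _ _)
    exact_mod_cast h1
  obtain ⟨e, heE⟩ := hST
  have heE' := mem_product.1 (mem_filter.1 heE).1
  have hS : S.Nonempty := ⟨_, heE'.1⟩
  have hT : T.Nonempty := ⟨_, heE'.2⟩
  have hSpos : (0 : ℝ) < S.card := by exact_mod_cast card_pos.2 hS
  have hTpos : (0 : ℝ) < T.card := by exact_mod_cast card_pos.2 hT
  obtain ⟨P, hP, Q, hQ, hPc, hQc, hPQ⟩ := hhom p S T hS hT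
  have hPpos : (0 : ℝ) < P.card := lt_of_lt_of_le (by positivity) hPc
  have hQpos : (0 : ℝ) < Q.card := lt_of_lt_of_le (by positivity) hQc
  have hPne : P.Nonempty := card_pos.1 (by exact_mod_cast hPpos)
  have hQne : Q.Nonempty := card_pos.1 (by exact_mod_cast hQpos)
  have hPQc : c ^ 2 * ((S.card : ℝ) * T.card) ≤ P.card * Q.card := by
    have h1 : (c * S.card) * (c * T.card) ≤ (P.card : ℝ) * Q.card :=
      mul_le_mul hPc hQc (by positivity) hPpos.le
    linarith
  have hPn : (P.card : ℝ) + Q.card ≤ n := by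
    have h1 : (P.card : ℝ) ≤ Fintype.card (LL d p) := by exact_mod_cast card_le_univ P
    have h2 : (Q.card : ℝ) ≤ Fintype.card (Fin d → Fin p) := by exact_mod_cast card_le_univ Q
    linarith
  have hc2 : 0 < c ^ 2 := by positivity
  have key : (P.card : ℝ) * Q.card ≤ 2 * n * kappa (ipE F) S T := by
    rcases hPQ with h | h
    · have h1 : harm P.card Q.card ≤ kappa (ipE F) S T :=
        le_csSup (kappa_bdd (ipE F) S T) ⟨P, Q, hP, hQ,
          ⟨hPne, hQne, fun a ha b hb => Or.inl (h a ha b hb)⟩, rfl⟩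
      unfold harm at h1
      rw [div_le_iff₀ (by linarith)] at h1
      have h2 : kappa (ipE F) S T * ((P.card : ℝ) + Q.card) ≤ kappa (ipE F) S T * n :=
        mul_le_mul_of_nonneg_left hPn (by linarith)
      nlinarith
    · have h1 := tight_card d p P Q hQne h
      have h2 : p ^ (d + 1) ≤ Fintype.card (LL d p) := by
        rw [LL_card, pow_succ]
        apply Nat.mul_le_mul_left
        nlinarith
      have h3 : (P.card : ℝ) * Q.card ≤ Fintype.card (LL d p) := by
        exact_mod_cast h1.trans h2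
      have h4 : (Fintype.card (LL d p) : ℝ) ≤ n := by
        rw [hn]
        have : (0 : ℝ) ≤ Fintype.card (Fin d → Fin p) := Nat.cast_nonneg _
        linarith
      have h5 : 0 ≤ n := by linarith
      nlinarith
  have h6 : c ^ 2 * ((S.card : ℝ) * T.card) ≤ 2 * n * kappa (ipE F) S T := hPQc.trans key
  have h7 : (S.card : ℝ) * T.card ≤ 2 / c ^ 2 * n * kappa (ipE F) S T := by
    have h8 : 2 / c ^ 2 * n * kappa (ipE F) S T = (2 * n * kappa (ipE F) S T) / c ^ 2 := by
      field_simp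
    rw [h8, le_div_iff₀ hc2]
    linarith
  linarith

theorem eta_ip (d p K : ℕ) (hK : 4 * (Fintype.card (LL d p) + Fintype.card (Fin d → Fin p)) ≤ 2 ^ K)
    (hp : 2 ≤ p) :
    ∃ F : Finset (LL d p × (Fin d → Fin p)),
      (p : ℝ) ^ (2 * d) ≤ 2 * K * etaStar (ipE F) := by
  set T' : Finset (LL d p × (Fin d → Fin p)) := univ.filter (fun e => tight e.1 e.2) with hT'
  obtain ⟨F, hFT, hFc, hF⟩ := exists_half T' K hK
  refine ⟨F, ?_⟩
  have hTc : p ^ (2 * d) ≤ T'.card := by
    have h1 : (univ : Finset ((Fin d → Fin p) × (Fin d → Fin p))).card = p ^ (2 * d) := by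
      rw [card_univ, Fintype.card_prod, Fintype.card_fun, Fintype.card_fin, Fintype.card_fin]
      ring
    rw [← h1]
    apply Finset.card_le_card_of_injOn
      (fun z => ((z.1, ⟨ip z.1 z.2, Nat.lt_succ_of_le (ip_le z.1 z.2)⟩), z.2))
    · intro z _
      rw [hT', mem_coe, mem_filter]
      exact ⟨mem_univ _, rfl⟩
    · intro z _ z' _ hzz
      exact Prod.ext (congrArg (fun q => q.1.1) hzz) (congrArg (fun q => q.2) hzz)
  have hpos : 0 < p ^ (2 * d) := Nat.pos_of_ne_zero (by positivity)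
  have hFne : F.Nonempty := by
    rw [← card_pos]
    omega
  have hn1 : 0 < Fintype.card (LL d p) := by
    rw [LL_card]
    positivity
  have hK1 : 0 < K := by
    rcases Nat.eq_zero_or_pos K with h | h
    · rw [h] at hK
      omega
    · exact h
  have hK1' : (0 : ℝ) < K := by exact_mod_cast hK1
  have hE : ∀ e ∈ F, ipE F e.1 e.2 := fun e he => Or.inr he
  have heta : 1 / (K : ℝ) ≤ eta (ipE F) F := by
    apply le_csInf
    · obtain ⟨e, he⟩ := hFne
      refine ⟨_, {e.1}, {e.2}, ⟨singleton_nonempty _, singleton_nonempty _, ?_⟩, ⟨e, ?_⟩, rfl⟩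
      · intro x hx y hy
        rw [mem_singleton] at hx hy
        rw [hx, hy]
        exact hE e he
      · exact (mem_hit _ _ _ _).2 ⟨he, mem_singleton_self _, mem_singleton_self _⟩
    · rintro r ⟨P, Q, ⟨hP, hQ, hPQ⟩, hne, rfl⟩
      have h1 := hF P Q (by
        intro e he
        simp only [Finset.mem_filter] at he
        rcases hPQ e.1 he.2.1 e.2 he.2.2 with h | h
        · exact absurd (mem_filter.1 he.1).2 h
        · exact h)
      have h2 : (hit F P Q).card ≤ K * (P.card + Q.card) := by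
        refine le_trans (card_le_card ?_) h1
        intro e he
        rw [mem_hit] at he
        simp only [Finset.mem_filter]
        exact ⟨hFT he.1, he.2⟩
      have h3 : (0 : ℝ) < (hit F P Q).card := by exact_mod_cast card_pos.2 hne
      rw [div_le_div_iff₀ hK1' h3, one_mul]
      have h4 : ((hit F P Q).card : ℝ) ≤ K * ((P.card : ℝ) + Q.card) := by exact_mod_cast h2
      linarith
  have h5 : (F.card : ℝ) * eta (ipE F) F ≤ etaStar (ipE F) :=
    le_csSup (etaStar_bdd (ipE F)) ⟨F, hFne, hE, rfl⟩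
  have h6 : (p : ℝ) ^ (2 * d) ≤ 2 * F.card := by exact_mod_cast hTc.trans hFc
  have h7 : (0 : ℝ) ≤ F.card := Nat.cast_nonneg _
  have h8 : (F.card : ℝ) * (1 / K) ≤ etaStar (ipE F) :=
    (mul_le_mul_of_nonneg_left heta h7).trans h5
  have h9 : (F.card : ℝ) ≤ K * etaStar (ipE F) := by
    have h10 : K * ((F.card : ℝ) * (1 / K)) ≤ K * etaStar (ipE F) :=
      mul_le_mul_of_nonneg_left h8 hK1'.le
    have h11 : K * ((F.card : ℝ) * (1 / K)) = F.card := by field_simp
    linarith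
  linarith

theorem ip_total (d p : ℕ) : Fintype.card (LL d p) + Fintype.card (Fin d → Fin p) =
    p ^ d * (d * p ^ 2 + 2) := by
  rw [LL_card, Fintype.card_fun, Fintype.card_fin, Fintype.card_fin]
  ring

/-- The main estimate. -/
theorem ip_main (d : ℕ) (hd : 2 ≤ d) : ∃ C : ℝ, 0 < C ∧ ∀ (p K : ℕ), p.Prime →
    4 * (p ^ d * (d * p ^ 2 + 2)) ≤ 2 ^ K →
    ∃ F : Finset (LL d p × (Fin d → Fin p)), NoIsolated (ipE F) ∧ 0 < mu (ipE F) ∧
      (p : ℝ) ^ (d - 2) * mu (ipE F) ≤ C * K * etaStar (ipE F) := by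
  obtain ⟨C, hC, hmu⟩ := mu_ip_le d (by omega)
  refine ⟨2 * C * (d + 1), by positivity, ?_⟩
  intro p K hp hK
  have : Fact p.Prime := ⟨hp⟩
  obtain ⟨F, hF⟩ := eta_ip d p K (by rw [ip_total]; exact hK) hp.two_le
  refine ⟨F, ip_noIsolated d p (by omega) hp.two_le F,
    mu_pos _ (ip_edges d p (by omega) hp.two_le F), ?_⟩
  have h1 := hmu p F
  have hn : (Fintype.card (LL d p) : ℝ) + Fintype.card (Fin d → Fin p) ≤
      (d + 1) * (p : ℝ) ^ (d + 2) := by
    have h2 : Fintype.card (LL d p) + Fintype.card (Fin d → Fin p) ≤ (d + 1) * p ^ (d + 2) := by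
      rw [ip_total]
      have h3 : 2 ≤ p ^ 2 := by nlinarith [hp.two_le]
      have h4 : p ^ d * (d * p ^ 2 + 2) ≤ p ^ d * (d * p ^ 2 + p ^ 2) :=
        Nat.mul_le_mul_left _ (by omega)
      refine h4.trans (le_of_eq ?_)
      ring
    exact_mod_cast h2
  have hp0 : (0 : ℝ) < p := by exact_mod_cast hp.pos
  have h5 : mu (ipE F) ≤ C * ((d + 1) * (p : ℝ) ^ (d + 2)) :=
    h1.trans (mul_le_mul_of_nonneg_left hn hC.le)
  have h6 : (p : ℝ) ^ (2 * d) = (p : ℝ) ^ (d - 2) * (p : ℝ) ^ (d + 2) := by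
    rw [← pow_add]
    congr 1
    omega
  have h7 : (p : ℝ) ^ (d - 2) * mu (ipE F) ≤
      (p : ℝ) ^ (d - 2) * (C * ((d + 1) * (p : ℝ) ^ (d + 2))) :=
    mul_le_mul_of_nonneg_left h5 (by positivity)
  have h8 : (p : ℝ) ^ (d - 2) * (C * ((d + 1) * (p : ℝ) ^ (d + 2))) =
      C * (d + 1) * (p : ℝ) ^ (2 * d) := by
    rw [h6]
    ring
  have h9 : C * (d + 1) * (p : ℝ) ^ (2 * d) ≤ C * (d + 1) * (2 * K * etaStar (ipE F)) :=
    mul_le_mul_of_nonneg_left hF (by positivity)
  linarith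

end Pool.Agent.X53.Bic
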