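import Mathlib
import Pool.Agent.X53.Bic.Fin

/-! Asymptotics. -/

namespace Pool.Agent.X53.Bic

open Finset Classical

theorem asym (ε : ℝ) (hε : 0 < ε) (N : ℕ) : ∃ N0 : ℕ, ∀ n : ℕ, N0 ≤ n →
    ∃ (α β : Type) (_ : Fintype α) (_ : Fintype β) (E : α → β → Prop),
      NoIsolated E ∧ N ≤ Fintype.card α + Fintype.card β ∧
        Fintype.card α + Fintype.card β ≤ n ∧ 0 < mu E ∧
          (n : ℝ) ^ (1 - ε) * mu E ≤ etaStar E := by
  set d : ℕ := ⌈4 / ε⌉₊ + 2 with hd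
  have hd2 : 2 ≤ d := by omega
  have hdε : 4 / ((d : ℝ) + 2) < ε := by
    have h1 : 4 / ε ≤ ⌈4 / ε⌉₊ := Nat.le_ceil _
    have h2 : (d : ℝ) = ⌈4 / ε⌉₊ + 2 := by
      rw [hd]
      push_cast
      rfl
    have h3 : 4 / ε < (d : ℝ) + 2 := by
      rw [h2]
      linarith
    rw [div_lt_iff₀ hε] at h3
    rw [div_lt_iff₀ (by positivity)]
    linarith
  obtain ⟨C, hC, hmain⟩ := ip_main d hd2
  have hdR : (2 : ℝ) ≤ d := by exact_mod_cast hd2
  set δ : ℝ := ((d : ℝ) - 2) / (d + 2) - (1 - ε) with hδ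
  have hδpos : 0 < δ := by
    have h1 : ((d : ℝ) - 2) / (d + 2) = 1 - 4 / ((d : ℝ) + 2) := by
      field_simp
      ring
    rw [hδ, h1]
    linarith
  set cd : ℝ := (1 / 2) ^ (d - 2) * ((1 / ((d : ℝ) + 1)) ^ (((d : ℝ) - 2) / (d + 2))) with hcd
  have hcdpos : 0 < cd := by positivity
  have hlit := (isLittleO_log_rpow_atTop hδpos).def (show (0 : ℝ) < cd / (4 * C) by positivity)
  have hev := tendsto_natCast_atTop_atTop.eventually hlit
  obtain ⟨n0, hn0⟩ := Filter.eventually_atTop.1 hev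
  refine ⟨max n0 (max 4 ((d + 1) * (2 * (N + 1)) ^ (d + 2))), ?_⟩
  intro n hn
  have hn1 : n0 ≤ n := le_trans (le_max_left _ _) hn
  have hn4 : 4 ≤ n := le_trans (le_trans (le_max_left _ _) (le_max_right _ _)) hn
  have hnN : (d + 1) * (2 * (N + 1)) ^ (d + 2) ≤ n :=
    le_trans (le_trans (le_max_right _ _) (le_max_right _ _)) hn
  have hnR : (4 : ℝ) ≤ n := by exact_mod_cast hn4
  have hlogpos : 0 < Real.log n := Real.log_pos (by linarith)
  have hlog := hn0 n hn1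
  rw [Real.norm_of_nonneg hlogpos.le, Real.norm_of_nonneg (by positivity)] at hlog
  -- the size
  set t : ℝ := ((n : ℝ) / (d + 1)) ^ (1 / ((d : ℝ) + 2)) with ht
  have ht0 : 0 ≤ t := by positivity
  have htd : t ^ (d + 2) = n / (d + 1) := by
    rw [ht, ← Real.rpow_natCast, ← Real.rpow_mul (by positivity)]
    have : 1 / ((d : ℝ) + 2) * ((d + 2 : ℕ) : ℝ) = 1 := by
      push_cast
      field_simp
    rw [this, Real.rpow_one]
  have htN : 2 * ((N : ℝ) + 1) ≤ t := by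
    by_contra hcon
    push Not at hcon
    have h1 : t ^ (d + 2) < (2 * ((N : ℝ) + 1)) ^ (d + 2) :=
      pow_lt_pow_left₀ hcon ht0 (by omega)
    rw [htd, div_lt_iff₀ (by positivity)] at h1
    have h2 : ((d : ℝ) + 1) * (2 * ((N : ℝ) + 1)) ^ (d + 2) ≤ n := by exact_mod_cast hnN
    linarith
  have hN0 : (0 : ℝ) ≤ N := Nat.cast_nonneg _
  set m := ⌊t⌋₊ with hm
  have hmt : (m : ℝ) ≤ t := Nat.floor_le ht0
  have htm : t < m + 1 := Nat.lt_floor_add_one t
  have hm2 : 2 ≤ m := Nat.le_floor (by push_cast; linarith)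
  obtain ⟨p, hp, hp1, hp2⟩ := Nat.exists_prime_lt_and_le_two_mul (m / 2) (by omega)
  have hpm : p ≤ m := by omega
  have hmp : m + 1 ≤ 2 * p := by omega
  have hpt : (p : ℝ) ≤ t := le_trans (by exact_mod_cast hpm) hmt
  have htp : t ≤ 2 * p := by
    have : (m : ℝ) + 1 ≤ 2 * p := by exact_mod_cast hmp
    linarith
  have hp0 : (0 : ℝ) < p := by exact_mod_cast hp.pos
  set M := p ^ d * (d * p ^ 2 + 2) with hM
  have hMn : M ≤ n := by
    have h3 : 2 ≤ p ^ 2 := by nlinarith [hp.two_le]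
    have h4 : p ^ d * (d * p ^ 2 + 2) ≤ p ^ d * (d * p ^ 2 + p ^ 2) :=
      Nat.mul_le_mul_left _ (by omega)
    have h5 : p ^ d * (d * p ^ 2 + p ^ 2) = (d + 1) * p ^ (d + 2) := by ring
    have h6 : (p : ℝ) ^ (d + 2) ≤ t ^ (d + 2) := pow_le_pow_left₀ hp0.le hpt _
    rw [htd, le_div_iff₀ (by positivity)] at h6
    have h7 : ((d : ℝ) + 1) * (p : ℝ) ^ (d + 2) ≤ n := by linarith
    have h8 : (d + 1) * p ^ (d + 2) ≤ n := by exact_mod_cast h7
    omega
  have hMN : N ≤ M := by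
    have h1 : (N : ℝ) ≤ p := by linarith
    have h2 : N ≤ p := by exact_mod_cast h1
    have h3 : p ≤ p ^ d := Nat.le_self_pow (by omega) p
    have h4 : p ^ d * 1 ≤ p ^ d * (d * p ^ 2 + 2) := Nat.mul_le_mul_left _ (by omega)
    omega
  have hMpos : 0 < M := by
    rw [hM]
    have := hp.pos
    positivity
  set K := Nat.log 2 (4 * M) + 1 with hK
  have hKM : 4 * M ≤ 2 ^ K := (Nat.lt_pow_succ_log_self (by norm_num) _).le
  obtain ⟨F, hF1, hF2, hF3⟩ := hmain p K hp hKM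
  refine ⟨LL d p, Fin d → Fin p, inferInstance, inferInstance, ipE F, hF1, ?_, ?_, hF2, ?_⟩
  · rw [ip_total]
    exact hMN
  · rw [ip_total]
    exact hMn
  -- K ≤ 4 log n
  have hKlog : (K : ℝ) ≤ 4 * Real.log n := by
    have h1 : 2 ^ Nat.log 2 (4 * M) ≤ 4 * M := Nat.pow_log_le_self 2 (by omega)
    have h2 : (2 : ℝ) ^ Nat.log 2 (4 * M) ≤ (n : ℝ) ^ 2 := by
      have h3 : 2 ^ Nat.log 2 (4 * M) ≤ n ^ 2 := by nlinarith
      exact_mod_cast h3
    have h4 : (Nat.log 2 (4 * M) : ℝ) * Real.log 2 ≤ 2 * Real.log n := by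
      have h5 := Real.log_le_log (by positivity) h2
      rw [Real.log_pow, Real.log_pow] at h5
      exact_mod_cast h5
    have h6 : (0.6931471803 : ℝ) < Real.log 2 := Real.log_two_gt_d9
    have h7 : (0 : ℝ) ≤ (Nat.log 2 (4 * M) : ℝ) := Nat.cast_nonneg _
    have h8 : (Nat.log 2 (4 * M) : ℝ) * 0.69 ≤ 2 * Real.log n := by nlinarith
    have h9 : (1 : ℝ) ≤ Real.log n := by
      rw [Real.le_log_iff_exp_le (by linarith)]
      have := Real.exp_one_lt_d9
      linarith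
    rw [hK]
    push_cast
    linarith
  have heta : 0 ≤ etaStar (ipE F) := by
    have h1 : 0 < (p : ℝ) ^ (d - 2) * mu (ipE F) := by positivity
    have h2 : 0 < C * K * etaStar (ipE F) := lt_of_lt_of_le h1 hF3
    have h3 : 0 ≤ C * (K : ℝ) := by positivity
    by_contra hcon
    push Not at hcon
    have : C * K * etaStar (ipE F) ≤ 0 := mul_nonpos_of_nonneg_of_nonpos h3 hcon.le
    linarith
  -- power comparison
  have hpow : cd * (n : ℝ) ^ (((d : ℝ) - 2) / (d + 2)) ≤ (p : ℝ) ^ (d - 2) := by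
    have h1 : (t / 2) ^ (d - 2) ≤ (p : ℝ) ^ (d - 2) :=
      pow_le_pow_left₀ (by positivity) (by linarith) _
    refine le_trans (le_of_eq ?_) h1
    rw [div_pow, ht, ← Real.rpow_natCast (((n : ℝ) / (d + 1)) ^ (1 / ((d : ℝ) + 2))),
      ← Real.rpow_mul (by positivity), hcd]
    have h2 : 1 / ((d : ℝ) + 2) * ((d - 2 : ℕ) : ℝ) = ((d : ℝ) - 2) / (d + 2) := by
      rw [Nat.cast_sub hd2]
      push_cast
      ring
    rw [h2, div_eq_mul_one_div (n : ℝ), Real.mul_rpow (by positivity) (by positivity), one_div_pow]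
    ring
  have hsplit : (n : ℝ) ^ (((d : ℝ) - 2) / (d + 2)) = (n : ℝ) ^ δ * (n : ℝ) ^ (1 - ε) := by
    rw [← Real.rpow_add (by linarith), hδ]
    congr 1
    ring
  have hfin : 4 * C * Real.log n * ((n : ℝ) ^ (1 - ε)) ≤ (p : ℝ) ^ (d - 2) := by
    refine le_trans ?_ hpow
    rw [hsplit]
    have h1 : 4 * C * Real.log n ≤ cd * (n : ℝ) ^ δ := by
      have h2 : 4 * C * Real.log n ≤ 4 * C * (cd / (4 * C) * (n : ℝ) ^ δ) :=
        mul_le_mul_of_nonneg_left hlog (by positivity)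
      have h3 : 4 * C * (cd / (4 * C) * (n : ℝ) ^ δ) = cd * (n : ℝ) ^ δ := by
        field_simp
      linarith
    have h4 : 4 * C * Real.log n * (n : ℝ) ^ (1 - ε) ≤ cd * (n : ℝ) ^ δ * (n : ℝ) ^ (1 - ε) :=
      mul_le_mul_of_nonneg_right h1 (by positivity)
    linarith
  have h10 : 4 * C * Real.log n * ((n : ℝ) ^ (1 - ε) * mu (ipE F)) ≤
      4 * C * Real.log n * etaStar (ipE F) := by
    have h11 : 4 * C * Real.log n * ((n : ℝ) ^ (1 - ε)) * mu (ipE F) ≤
        (p : ℝ) ^ (d - 2) * mu (ipE F) := mul_le_mul_of_nonneg_right hfin hF2.le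
    have h12 : C * K * etaStar (ipE F) ≤ C * (4 * Real.log n) * etaStar (ipE F) :=
      mul_le_mul_of_nonneg_right (mul_le_mul_of_nonneg_left hKlog hC.le) heta
    linarith
  exact le_of_mul_le_mul_left h10 (by positivity)

end Pool.Agent.X53.Bic
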