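import Mathlib
import Pool.Agent.X53.Bic.Graph

/-! The trivial upper bound. -/

namespace Pool.Agent.X53.Bic

open Finset Classical

theorem eta_upper {α β : Type} [Fintype α] [Fintype β] (E : α → β → Prop)
    (h : (edges E univ univ).Nonempty) :
    etaStar E ≤ ((Fintype.card α : ℝ) + Fintype.card β) * mu E := by
  have hk := half_le_kappa E univ univ h
  have hE0 : (0 : ℝ) < (edges E univ univ).card := by exact_mod_cast card_pos.2 h
  have hmu : (edges E univ univ).card / kappa E univ univ ≤ mu E :=
    le_csSup (mu_bdd E) ⟨univ, univ, h, rfl⟩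
  rw [div_le_iff₀ (by linarith)] at hmu
  have hmu0 := mu_pos E h
  obtain ⟨e0, he0⟩ := h
  have he0E : E e0.1 e0.2 := (mem_filter.1 he0).2
  have hkn : kappa E univ univ ≤ ((Fintype.card α : ℝ) + Fintype.card β) / 4 := by
    refine csSup_le (Exists.intro _ ⟨{e0.1}, {e0.2}, subset_univ _, subset_univ _,
      ⟨singleton_nonempty _, singleton_nonempty _, ?_⟩, rfl⟩) ?_
    · intro x hx y hy
      rw [mem_singleton] at hx hy
      rw [hx, hy]
      exact he0E
    · rintro r ⟨P, Q, -, -, ⟨hP, hQ, -⟩, rfl⟩
      have h1 : (0 : ℝ) < P.card := by exact_mod_cast card_pos.2 hP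
      have h2 : (0 : ℝ) < Q.card := by exact_mod_cast card_pos.2 hQ
      have h3 : (P.card : ℝ) ≤ Fintype.card α := by exact_mod_cast card_le_univ P
      have h4 : (Q.card : ℝ) ≤ Fintype.card β := by exact_mod_cast card_le_univ Q
      have h5 : harm P.card Q.card ≤ ((P.card : ℝ) + Q.card) / 4 := by
        unfold harm
        rw [div_le_iff₀ (by linarith)]
        nlinarith [sq_nonneg ((P.card : ℝ) - Q.card)]
      linarith
  have hF : ∀ F : Finset (α × β), F.Nonempty → (∀ e ∈ F, E e.1 e.2) →
      (F.card : ℝ) * eta E F ≤ 2 * (edges E univ univ).card := by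
    intro F hFn hFE
    obtain ⟨e, he⟩ := hFn
    have hpos : ∀ P Q, 0 ≤ ((P.card : ℝ) + Q.card) / (hit F P Q).card := by
      intro P Q
      positivity
    have h1 : eta E F ≤ 2 := by
      have h2 : eta E F ≤ ((({e.1} : Finset α).card : ℝ) + ({e.2} : Finset β).card) /
          (hit F {e.1} {e.2}).card := by
        apply csInf_le
        · refine ⟨0, ?_⟩
          rintro r ⟨P, Q, -, -, rfl⟩
          exact hpos P Q
        · refine ⟨{e.1}, {e.2}, ⟨singleton_nonempty _, singleton_nonempty _, ?_⟩, ⟨e, ?_⟩, rfl⟩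
          · intro x hx y hy
            rw [mem_singleton] at hx hy
            rw [hx, hy]
            exact hFE e he
          · exact (mem_hit _ _ _ _).2 ⟨he, mem_singleton_self _, mem_singleton_self _⟩
      have h3 : (1 : ℝ) ≤ (hit F {e.1} {e.2}).card := by
        have : 0 < (hit F {e.1} {e.2}).card :=
          card_pos.2 ⟨e, (mem_hit _ _ _ _).2 ⟨he, mem_singleton_self _, mem_singleton_self _⟩⟩
        exact_mod_cast this
      refine h2.trans ?_
      rw [card_singleton, card_singleton, div_le_iff₀ (by linarith)]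
      push_cast
      linarith
    have h4 : (F.card : ℝ) ≤ (edges E univ univ).card := by
      have : F ⊆ edges E univ univ := by
        intro z hz
        exact mem_filter.2 ⟨mem_product.2 ⟨mem_univ _, mem_univ _⟩, hFE z hz⟩
      exact_mod_cast card_le_card this
    have h5 : (0 : ℝ) ≤ F.card := Nat.cast_nonneg _
    nlinarith
  refine csSup_le (Exists.intro _ ⟨{e0}, singleton_nonempty _, ?_, rfl⟩) ?_
  · intro e he
    rw [mem_singleton] at he
    rw [he]
    exact he0E
  · rintro r ⟨F, hF1, hF2, rfl⟩
    refine (hF F hF1 hF2).trans ?_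
    have h6 : mu E * kappa E univ univ ≤
        mu E * (((Fintype.card α : ℝ) + Fintype.card β) / 4) :=
      mul_le_mul_of_nonneg_left hkn hmu0.le
    have h7 : 0 ≤ ((Fintype.card α : ℝ) + Fintype.card β) * mu E := by positivity
    linarith

end Pool.Agent.X53.Bic
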