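import Mathlib
import Pool.Agent.X53.Bic.Graph

/-!
# MP_28a56a_co, Q1: the gap between `η^*` and `μ` is polynomial
-/

namespace Pool.Agent.X53.Bic.PolynomialGap

open Pool.Agent.X53.Bic

/-- The gap is at least of order `n^(1/3) / log n`; in particular it is not polylogarithmic.
(1) For every `m ≥ 1` there is a bipartite graph on `3 m^3` vertices with
`m μ(G) ≤ (32 + 36 log_2 (m^3)) η^*(G)`. (2) There is `c > 0` such that for every `n ≥ 3` some
bipartite graph on at most `n` vertices has `η^*(G) ≥ c (n^(1/3) / log n) μ(G)`.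
(3) For every `k` there are bipartite graphs on arbitrarily many vertices `n` with
`η^*(G) > (log n)^k μ(G)`. -/
theorem polynomial_gap :
    (∀ m : ℕ, 1 ≤ m → ∃ (α β : Type) (_ : Fintype α) (_ : Fintype β) (E : α → β → Prop),
      NoIsolated E ∧ Fintype.card α + Fintype.card β = 3 * m ^ 3 ∧ 0 < mu E ∧
        (m : ℝ) * mu E ≤ (32 + 36 * Nat.log 2 (m ^ 3)) * etaStar E) ∧
    (∃ c : ℝ, 0 < c ∧ ∀ n : ℕ, 3 ≤ n →
      ∃ (α β : Type) (_ : Fintype α) (_ : Fintype β) (E : α → β → Prop),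
        NoIsolated E ∧ Fintype.card α + Fintype.card β ≤ n ∧ 0 < mu E ∧
          c * ((n : ℝ) ^ (1 / 3 : ℝ) / Real.log n) * mu E ≤ etaStar E) ∧
    ∀ k N : ℕ, ∃ (α β : Type) (_ : Fintype α) (_ : Fintype β) (E : α → β → Prop),
      NoIsolated E ∧ N ≤ Fintype.card α + Fintype.card β ∧ 0 < mu E ∧
        Real.log ((Fintype.card α + Fintype.card β : ℕ) : ℝ) ^ k * mu E < etaStar E := by
  refine ⟨?_, ?_, ?_⟩
  · intro m hm
    exact ⟨_, _, inferInstance, inferInstance, pl m, pl_noIsolated m hm, pl_card m,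
      mu_pos _ (pl_edges m hm), ratio m hm⟩
  · refine ⟨1 / 360, by norm_num, ?_⟩
    intro n hn
    have hn3 : (3 : ℝ) ≤ n := by exact_mod_cast hn
    set t : ℝ := ((n : ℝ) / 3) ^ (1 / 3 : ℝ) with ht
    have ht3 : t ^ 3 = n / 3 := by
      rw [ht, ← Real.rpow_natCast, ← Real.rpow_mul (by positivity)]
      norm_num
    have ht0 : 0 ≤ t := by positivity
    have ht1 : 1 ≤ t := by
      by_contra hcon
      push Not at hcon
      have h1 : t ^ 3 < 1 := pow_lt_one₀ ht0 hcon (by norm_num)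
      rw [ht3] at h1
      linarith
    set m := ⌊t⌋₊ with hm
    have hm1 : 1 ≤ m := Nat.le_floor (by push_cast; exact ht1)
    have hmt : (m : ℝ) ≤ t := Nat.floor_le ht0
    have htm : t < m + 1 := Nat.lt_floor_add_one t
    have hm1' : (1 : ℝ) ≤ m := by exact_mod_cast hm1
    have hmn : 3 * m ^ 3 ≤ n := by
      have h1 : (m : ℝ) ^ 3 ≤ t ^ 3 := pow_le_pow_left₀ (by linarith) hmt 3
      rw [ht3] at h1
      have h2 : 3 * (m : ℝ) ^ 3 ≤ n := by linarith
      exact_mod_cast h2
    refine ⟨_, _, inferInstance, inferInstance, pl m, pl_noIsolated m hm1,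
      le_of_eq_of_le (pl_card m) hmn, mu_pos _ (pl_edges m hm1), ?_⟩
    have hr := ratio m hm1
    have hl := log_factor m n hm1 hmn
    have hmu := mu_pos (pl m) (pl_edges m hm1)
    have heta : 0 ≤ etaStar (pl m) := le_trans (by positivity) (etaStar_ge m hm1)
    have hlog : 0 < Real.log n := Real.log_pos (by linarith)
    -- n^(1/3) ≤ 2 t
    have hn13 : (n : ℝ) ^ (1 / 3 : ℝ) ≤ 2 * t := by
      have h1 : ((n : ℝ) ^ (1 / 3 : ℝ)) ^ 3 = n := by
        rw [← Real.rpow_natCast, ← Real.rpow_mul (by positivity)]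
        norm_num
      have h2 : (n : ℝ) ≤ (2 * t) ^ 3 := by
        rw [mul_pow, ht3]
        linarith
      by_contra hcon
      push Not at hcon
      have h3 : (2 * t) ^ 3 < ((n : ℝ) ^ (1 / 3 : ℝ)) ^ 3 :=
        pow_lt_pow_left₀ hcon (by linarith) (by norm_num)
      rw [h1] at h3
      linarith
    have h4 : (m : ℝ) * mu (pl m) ≤ 90 * Real.log n * etaStar (pl m) :=
      hr.trans (mul_le_mul_of_nonneg_right hl heta)
    have h5 : (n : ℝ) ^ (1 / 3 : ℝ) ≤ 4 * m := by linarith
    have h6 : (n : ℝ) ^ (1 / 3 : ℝ) * mu (pl m) ≤ 4 * m * mu (pl m) :=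
      mul_le_mul_of_nonneg_right h5 hmu.le
    have h7 : (n : ℝ) ^ (1 / 3 : ℝ) * mu (pl m) ≤ 360 * etaStar (pl m) * Real.log n := by
      nlinarith
    have h8 : (n : ℝ) ^ (1 / 3 : ℝ) * mu (pl m) / Real.log n ≤ 360 * etaStar (pl m) := by
      rw [div_le_iff₀ hlog]
      exact h7
    have h9 : 1 / 360 * ((n : ℝ) ^ (1 / 3 : ℝ) / Real.log n) * mu (pl m) =
        1 / 360 * ((n : ℝ) ^ (1 / 3 : ℝ) * mu (pl m) / Real.log n) := by ring
    rw [h9]
    linarith
  · intro k N
    -- eventually 90 * 4^(k+1) (log m)^(k+1) < m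
    have hlit := (Real.isLittleO_pow_log_id_atTop (n := k + 1)).def
      (show (0 : ℝ) < 1 / (2 * (90 * 4 ^ (k + 1))) by positivity)
    have hev := tendsto_natCast_atTop_atTop.eventually hlit
    obtain ⟨m0, hm0⟩ := Filter.eventually_atTop.1 hev
    set m := max m0 (max N 3) with hm
    have hm3 : 3 ≤ m := le_trans (le_max_right _ _) (le_max_right _ _)
    have hmN : N ≤ m := le_trans (le_max_left _ _) (le_max_right _ _)
    have hm1 : 1 ≤ m := by omega
    have hmR : (3 : ℝ) ≤ m := by exact_mod_cast hm3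
    have h1 := hm0 m (le_max_left _ _)
    have hlogm : 0 ≤ Real.log m := Real.log_nonneg (by linarith)
    have h2 : Real.log m ^ (k + 1) ≤ 1 / (2 * (90 * 4 ^ (k + 1))) * m := by
      have h3 : ‖Real.log (m : ℝ) ^ (k + 1)‖ ≤ 1 / (2 * (90 * 4 ^ (k + 1))) * ‖(id (m : ℝ) : ℝ)‖ :=
        h1
      rw [Real.norm_of_nonneg (by positivity), id, Real.norm_of_nonneg (by linarith)] at h3
      exact h3
    refine ⟨_, _, inferInstance, inferInstance, pl m, pl_noIsolated m hm1, ?_,
      mu_pos _ (pl_edges m hm1), ?_⟩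
    · rw [pl_card m]
      have : m * 1 ≤ m * (3 * m ^ 2) := Nat.mul_le_mul_left _ (by nlinarith)
      nlinarith
    · rw [pl_card m]
      have hr := ratio m hm1
      have hl := log_factor m (3 * m ^ 3) hm1 (le_refl _)
      have hmu := mu_pos (pl m) (pl_edges m hm1)
      have heta : 0 ≤ etaStar (pl m) := le_trans (by positivity) (etaStar_ge m hm1)
      set L : ℝ := Real.log ((3 * m ^ 3 : ℕ) : ℝ) with hL
      have hL4 : L ≤ 4 * Real.log m := by
        rw [hL]
        have h4 : ((3 * m ^ 3 : ℕ) : ℝ) ≤ (m : ℝ) ^ 4 := by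
          push_cast
          nlinarith [pow_pos (show (0 : ℝ) < m by linarith) 3]
        have h5 : Real.log ((3 * m ^ 3 : ℕ) : ℝ) ≤ Real.log ((m : ℝ) ^ 4) :=
          Real.log_le_log (by positivity) h4
        rw [Real.log_pow] at h5
        exact_mod_cast h5
      have hLpos : 0 < L := by
        apply Real.log_pos
        push_cast
        nlinarith [one_le_pow₀ (show (1 : ℝ) ≤ m by linarith) (n := 3)]
      have h6 : (m : ℝ) * mu (pl m) ≤ 90 * L * etaStar (pl m) :=
        hr.trans (mul_le_mul_of_nonneg_right hl heta)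
      have h7 : L ^ (k + 1) ≤ (4 * Real.log m) ^ (k + 1) := pow_le_pow_left₀ hLpos.le hL4 _
      have h8 : 90 * L ^ (k + 1) < m := by
        rw [mul_pow] at h7
        have h9 : 90 * (4 ^ (k + 1) * Real.log m ^ (k + 1)) ≤ m / 2 := by
          have h10 : (90 * 4 ^ (k + 1) : ℝ) * Real.log m ^ (k + 1) ≤
              (90 * 4 ^ (k + 1) : ℝ) * (1 / (2 * (90 * 4 ^ (k + 1))) * m) :=
            mul_le_mul_of_nonneg_left h2 (by positivity)
          have h11 : (90 * 4 ^ (k + 1) : ℝ) * (1 / (2 * (90 * 4 ^ (k + 1))) * m) = m / 2 := by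
            field_simp
          linarith
        linarith
      have h12 : 90 * L * (L ^ k * mu (pl m)) < 90 * L * etaStar (pl m) := by
        have h13 : 90 * L ^ (k + 1) * mu (pl m) < m * mu (pl m) :=
          mul_lt_mul_of_pos_right h8 hmu
        have h14 : 90 * L * (L ^ k * mu (pl m)) = 90 * L ^ (k + 1) * mu (pl m) := by
          ring
        linarith
      exact lt_of_mul_lt_mul_left h12 (by positivity)

end Pool.Agent.X53.Bic.PolynomialGap
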